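import Mathlib
import Pool.Graph.R_seed8.W262.G3.Fin2
import Pool.Graph.R_seed8.W623.SecG.Loc2

/-!
# Sections of double covers of hyperelliptic curves: the places which ramify
-/

set_option autoImplicit false

namespace Pool.Agent.Helper47.DM

open Pool.Agent.W620.SC Pool.Agent.W262.TW Pool.Agent.W623.SecE Pool.Agent.W623.SecG
  Pool.Agent.W262.S3 Pool.Agent.W405.S3 Pool.Agent.W262.G3 Polynomial

universe v w

/-- the polynomial with the zeros `e k` -/
noncomputable def gp {K : Type} [Fintype K] (e : K → ℤ) : ℤ[X] := ∏ k, (X - C (e k))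

theorem gp_monic {K : Type} [Fintype K] (e : K → ℤ) : (gp e).Monic := monic_prod_X_sub_C _ _

theorem gp_natDegree {K : Type} [Fintype K] (e : K → ℤ) : (gp e).natDegree = Fintype.card K := by
  rw [gp, natDegree_prod_of_monic _ _ fun k _ => monic_X_sub_C _,
    Finset.sum_congr rfl fun k _ => natDegree_X_sub_C _]
  simp

theorem aeval_gp {K : Type} [Fintype K] (e : K → ℤ) {F : Type*} [Field F] (x : F) :
    aeval x (gp e) = ∏ k, (x - (e k : F)) := by
  rw [gp, map_prod]
  refine Finset.prod_congr rfl fun k _ => ?_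
  simp

/-- at a prime number which divides `D` exactly once a section of the double cover
`D w² = ∏ (x - e k)` of `y² = h(x)` lies above a point with `x = e k`, `h(e k)` a square -/
theorem sq_at {K : Type} [Fintype K] [DecidableEq K] (e : K → ℤ) (hev : Even (Fintype.card K))
    (hK : 4 ≤ Fintype.card K) (h : ℤ[X]) (hh : Even h.natDegree) (p : ℕ) (hp : p.Prime)
    (hp2 : 2 < p) (hpe : ∀ i k, i ≠ k → ¬ (p : ℤ) ∣ e i - e k) (hlc : ¬ (p : ℤ) ∣ h.leadingCoeff)
    (hsep : ((gp e * h).map (Int.castRingHom (ZMod p))).Separable) (D : ℤ) (hD : Squarefree D)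
    (hpD : (p : ℤ) ∣ D)
    (F : Type v) (Ω : Type w) [Field F] [Field Ω] [Algebra ℚ F]
    [Algebra F Ω] [Algebra ℚ Ω] [IsScalarTower ℚ F Ω] [IsAlgClosed Ω] [Algebra.IsAlgebraic F Ω]
    (U : Set (ValuationSubring F)) (hU : ∀ O ∈ U, ∀ c : ℚ, algebraMap ℚ F c ∈ O)
    (G : GSection ℚ F Ω U) (x y w : F) (hy : y ^ 2 = aeval x h)
    (hw : (D : F) * w ^ 2 = ∏ k, (x - (e k : F))) (hx : Transcendental ℚ x) (k : K)
    (hAt : At G x e k) : ∃ n : ℤ, (p : ℤ) ∣ h.eval (e k) - n ^ 2 := by
  classical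
  obtain ⟨A, _, _, _, _, hfin, hfrac, hpi, hm, hres⟩ := Pool.Agent.W240.S3.zloc p hp
  have hpz := Nat.prime_iff_prime_int.mp hp
  have h2u : IsUnit (2 : A) := by
    have h5 : ¬ (p : ℤ) ∣ 2 := by
      intro h
      have := Int.le_of_dvd (by norm_num) h
      omega
    have := unit_of hm h5
    simpa using this
  have hh0 : h ≠ 0 := by
    rintro rfl
    exact hlc (by simp)
  have hgA : ∀ r : ℤ[X], (r.map (Int.castRingHom A)).natDegree = r.natDegree := fun r =>
    natDegree_map_eq_of_injective (charZ (A := A)) r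
  have hlA : ∀ r : ℤ[X], (r.map (Int.castRingHom A)).leadingCoeff = (r.leadingCoeff : A) := by
    intro r
    rw [leadingCoeff_map_of_injective (charZ (A := A))]
    rfl
  have haev : ∀ r : ℤ[X], aeval x ((r.map (Int.castRingHom A)).map (algebraMap A ℚ)) =
      aeval x r := by
    intro r
    rw [map_AQ, ← algebraMap_int_eq, aeval_map_algebraMap]
  obtain ⟨n, hn⟩ := hpD
  have hnn : ¬ (p : ℤ) ∣ n := by
    rintro ⟨n', rfl⟩
    exact hpz.not_isUnit (hD (p : ℤ) ⟨n', by rw [hn]; ring⟩)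
  have hlcf : (gp e * h).leadingCoeff = h.leadingCoeff := by
    rw [leadingCoeff_mul, (gp_monic e).leadingCoeff, one_mul]
  have hdegf : (gp e * h).natDegree = Fintype.card K + h.natDegree := by
    rw [natDegree_mul (gp_monic e).ne_zero hh0, gp_natDegree]
  obtain ⟨b, hbm, hb⟩ := secloc2.{0, v, w} A ℚ F Ω h2u ((gp e * h).map (Int.castRingHom A))
    (by rw [hlA, hlcf]; exact unit_of hm hlc)
    (by rw [hgA, hdegf]; exact hev.add hh) (by rw [hgA, hdegf]; omega)
    (by
      have := sep_residue hm (fun _ : Unit => gp e * h) (by simpa using hsep)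
      simpa using this)
    (p : A) hpi (D : ℚ) (n : A) 1 (unit_of hm hnn)
    (by
      rw [map_intCast, map_natCast, zpow_one, hn]
      push_cast
      ring) U hU G x (w * y)
    (by
      rw [map_intCast, haev, map_mul, aeval_gp, ← hy, ← hw]
      ring) hx
  have hmP : (IsLocalRing.maximalIdeal A).IsPrime := inferInstance
  -- the factor `h`
  have hbh := hb (h.map (Int.castRingHom A)) (by rw [hlA]; exact unit_of hm hlc)
    (by rw [hgA]; exact hh) (by rw [Polynomial.map_mul]; exact dvd_mul_left _ _) (1 : ℚ)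
    (algebraMap F (unramified F Ω U) y) one_ne_zero (fun σ => AlgEquiv.commutes _ _)
    (by
      have e1 : ((algebraMap F (unramified F Ω U) y : unramified F Ω U) : Ω) =
          algebraMap F Ω y := rfl
      rw [e1, map_one, one_mul, haev, ← hy, map_pow])
  have hnh : (h.map (Int.castRingHom A)).eval b ∉ IsLocalRing.maximalIdeal A := by
    intro hmem
    obtain ⟨u, j, hu, hc⟩ := hbh.2.2 odd_one hmem
    have h1 : ((1 : ℤ) : ℚ) = algebraMap A ℚ u * algebraMap A ℚ (p : A) ^ (2 * j + 1) := by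
      rw [Int.cast_one]; exact hc
    have h2 := val_odd hpi hm hu h1
    exact hpz.not_isUnit (isUnit_of_dvd_one h2)
  obtain ⟨u, c, j, hu, hc, huc⟩ := hbh.2.1 odd_one hnh
  have h1 : ((1 : ℤ) : ℚ) = algebraMap A ℚ u * algebraMap A ℚ (p : A) ^ (2 * j) := by
    rw [Int.cast_one]; exact hc
  have hu1 := (val_even hpi hm hp squarefree_one hu h1).2
  rw [Int.cast_one] at hu1
  rw [hu1, one_mul] at huc
  -- the root
  have hb0 := hbm odd_one
  rw [Polynomial.map_mul, eval_mul] at hb0
  have hb1 := (hmP.mem_or_mem hb0).resolve_right hnh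
  rw [gp, Polynomial.map_prod, eval_prod, hmP.prod_mem_iff] at hb1
  obtain ⟨i, -, hi⟩ := hb1
  have hi' : b - ((e i : ℤ) : A) ∈ IsLocalRing.maximalIdeal A := by simpa using hi
  have hik : i = k := by
    by_contra hik
    have h3 : ∃ l', l' ≠ i ∧ l' ≠ k := by
      have : ({i, k} : Finset K).card < Fintype.card K := by
        refine lt_of_le_of_lt (Finset.card_le_two) (by omega)
      obtain ⟨l', hl'⟩ := Finset.exists_mem_notMem_of_card_lt_card
        (s := ({i, k} : Finset K)) (t := Finset.univ) (by rwa [Finset.card_univ])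
      refine ⟨l', ?_, ?_⟩ <;> rintro rfl <;> simp at hl'
    obtain ⟨l', hl1, hl2⟩ := h3
    obtain ⟨γ, hγ, hγ2⟩ := hAt i l' hik hl2
    set c0 : ℤ := (e k - e i) * (e k - e l') with hc0
    have hpc : ¬ (p : ℤ) ∣ c0 := by
      intro hd
      rcases hpz.dvd_or_dvd hd with hd | hd
      · exact hpe k i (Ne.symm hik) hd
      · exact hpe k l' (Ne.symm hl2) hd
    have hc00 : c0 ≠ 0 := by
      intro h0
      rw [h0] at hpc
      exact hpc (dvd_zero _)
    have hc0Q : (c0 : ℚ) ≠ 0 := by exact_mod_cast hc00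
    set r : ℤ[X] := (X - C (e i)) * (X - C (e l')) with hr
    have hrm : r.Monic := (monic_X_sub_C _).mul (monic_X_sub_C _)
    have hrd : r.natDegree = 2 := by
      rw [hr, (monic_X_sub_C _).natDegree_mul (monic_X_sub_C _), natDegree_X_sub_C,
        natDegree_X_sub_C]
    have hrdvd : r ∣ gp e := by
      rw [gp, ← Finset.mul_prod_erase Finset.univ _ (Finset.mem_univ i)]
      exact mul_dvd_mul_left _ (Finset.dvd_prod_of_mem _ (Finset.mem_erase.mpr
        ⟨hl1, Finset.mem_univ l'⟩))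
    have hbr := hb (r.map (Int.castRingHom A))
      (by rw [hlA, hrm.leadingCoeff, Int.cast_one]; exact isUnit_one)
      (by rw [hgA, hrd]; exact even_two)
      (Polynomial.map_dvd (Int.castRingHom A) (hrdvd.mul_right h)) (c0 : ℚ)
      (algebraMap F (unramified F Ω U) (algebraMap ℚ F (c0 : ℚ)⁻¹) * γ) hc0Q
      (fun σ => by rw [map_mul (G.toHom σ), AlgEquiv.commutes, hγ])
      (by
        have e1 : ((algebraMap F (unramified F Ω U) (algebraMap ℚ F (c0 : ℚ)⁻¹) * γ :
            unramified F Ω U) : Ω) = algebraMap ℚ Ω (c0 : ℚ)⁻¹ * (γ : Ω) := by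
          rw [IsScalarTower.algebraMap_apply ℚ F Ω (c0 : ℚ)⁻¹]
          rfl
        have e2 : aeval x r = (x - (e i : F)) * (x - (e l' : F)) := by
          rw [hr, map_mul]
          simp
        have e3 : algebraMap F Ω ((c0 : ℤ) : F) = algebraMap ℚ Ω (c0 : ℚ) := by
          rw [map_intCast, map_intCast]
        have e4 : algebraMap ℚ Ω (c0 : ℚ) * algebraMap ℚ Ω (c0 : ℚ)⁻¹ = 1 := by
          rw [← map_mul, mul_inv_cancel₀ hc0Q, map_one]
        rw [e1, haev, e2, mul_pow, hγ2, map_mul (algebraMap F Ω), e3]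
        calc algebraMap ℚ Ω (c0 : ℚ) * (algebraMap ℚ Ω (c0 : ℚ)⁻¹ ^ 2 *
              (algebraMap F Ω ((x - (e i : F)) * (x - (e l' : F))) * algebraMap ℚ Ω (c0 : ℚ))) =
              (algebraMap ℚ Ω (c0 : ℚ) * algebraMap ℚ Ω (c0 : ℚ)⁻¹) ^ 2 *
              algebraMap F Ω ((x - (e i : F)) * (x - (e l' : F))) := by ring
          _ = _ := by rw [e4, one_pow, one_mul])
    have hrb : (r.map (Int.castRingHom A)).eval b ∈ IsLocalRing.maximalIdeal A := by
      have : (r.map (Int.castRingHom A)).eval b = (b - ((e i : ℤ) : A)) * (b - ((e l' : ℤ) : A)) := by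
        simp [hr]
      rw [this]
      exact Ideal.mul_mem_right _ _ hi'
    obtain ⟨u', j', hu', hc'⟩ := hbr.2.2 odd_one hrb
    exact hpc (val_odd hpi hm hu' hc')
  subst hik
  obtain ⟨m, hm'⟩ := hres c
  refine ⟨m, ?_⟩
  rw [← hm]
  have h5 : (h.map (Int.castRingHom A)).eval b - ((h.eval (e i) : ℤ) : A) ∈
      IsLocalRing.maximalIdeal A := by
    rw [← eval_cast]
    exact Ideal.mem_of_dvd _ (Polynomial.sub_dvd_eval_sub _ _ _) hi'
  have h6 : ((h.eval (e i) - m ^ 2 : ℤ) : A) =
      ((h.map (Int.castRingHom A)).eval b - c ^ 2) -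
      ((h.map (Int.castRingHom A)).eval b - ((h.eval (e i) : ℤ) : A)) +
      (c + m) * (c - m) := by
    push_cast
    ring
  rw [h6]
  exact Ideal.add_mem _ (Ideal.sub_mem _ huc h5) (Ideal.mul_mem_left _ _ hm')

end Pool.Agent.Helper47.DM
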