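import Mathlib
import Pool.Agent.Helper47.DM.Sec

/-!
# Six points at which a polynomial takes independent values
-/

set_option autoImplicit false

namespace Pool.Agent.Helper47.DM

open Polynomial

/-- the primes which divide values of a polynomial are unbounded -/
theorem exists_prime_dvd (f : ℤ[X]) (hf : 0 < f.natDegree) (B : ℕ) :
    ∃ q : ℕ, q.Prime ∧ B < q ∧ ∃ n : ℤ, (q : ℤ) ∣ f.eval n := by
  by_cases h0 : f.eval 0 = 0
  · obtain ⟨q, hq, hqp⟩ := Nat.exists_infinite_primes (B + 1)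
    exact ⟨q, hqp, by omega, 0, by rw [h0]; exact dvd_zero _⟩
  set c := f.eval 0 with hc
  have hne : ∀ a : ℤ, f - C a ≠ 0 := by
    intro a ha
    have : f = C a := sub_eq_zero.1 ha
    rw [this, natDegree_C] at hf
    omega
  set m : ℤ := c * (B.factorial : ℤ) with hm
  have hm0 : m ≠ 0 := mul_ne_zero h0 (by exact_mod_cast B.factorial_ne_zero)
  have hinj : Function.Injective (fun t : ℤ => m * t) := fun a b h => mul_left_cancel₀ hm0 h
  obtain ⟨n, ⟨t, rfl⟩, hn⟩ := (Set.infinite_range_of_injective hinj).exists_notMem_finset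
    ((f - C c).roots.toFinset ∪ (f - C (-c)).roots.toFinset)
  rw [Finset.mem_union, not_or, Multiset.mem_toFinset, Multiset.mem_toFinset,
    mem_roots (hne _), mem_roots (hne _)] at hn
  obtain ⟨k, hk⟩ : (m * t - 0) ∣ f.eval (m * t) - f.eval 0 := sub_dvd_eval_sub _ _ _
  have hval : f.eval (m * t) = c * (1 + (B.factorial : ℤ) * t * k) := by
    have : f.eval (m * t) = f.eval 0 + (m * t - 0) * k := by linarith
    rw [this, hm]
    ring
  have h1 : (1 + (B.factorial : ℤ) * t * k).natAbs ≠ 1 := by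
    intro h
    rcases Int.natAbs_eq_iff.1 h with h | h
    · apply hn.1
      rw [IsRoot, eval_sub, eval_C]
      have : f.eval ((fun t : ℤ => m * t) t) = f.eval (m * t) := rfl
      rw [this, hval, h]
      simp
    · apply hn.2
      rw [IsRoot, eval_sub, eval_C]
      have : f.eval ((fun t : ℤ => m * t) t) = f.eval (m * t) := rfl
      rw [this, hval, h]
      simp
  obtain ⟨q, hq, hqd⟩ := Nat.exists_prime_and_dvd h1
  have hqd' : (q : ℤ) ∣ 1 + (B.factorial : ℤ) * t * k := Int.natCast_dvd.2 hqd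
  refine ⟨q, hq, ?_, m * t, by rw [hval]; exact Dvd.dvd.mul_left hqd' _⟩
  by_contra hB
  push Not at hB
  have h2 : (q : ℤ) ∣ (B.factorial : ℤ) := by
    exact_mod_cast (hq.dvd_factorial).2 hB
  have h3 : (q : ℤ) ∣ 1 := by
    have := dvd_sub hqd' ((h2.mul_right t).mul_right k)
    simpa using this
  exact (Nat.prime_iff_prime_int.mp hq).not_isUnit (isUnit_of_dvd_one h3)

/-- values exactly divisible by a large prime -/
theorem exists_exact (h U V : ℤ[X]) (R : ℤ) (hR : R ≠ 0) (hUV : U * h + V * derivative h = C R)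
    (hd : 0 < h.natDegree) (B : ℕ) :
    ∃ q : ℕ, q.Prime ∧ B < q ∧ ∃ n : ℤ, (q : ℤ) ∣ h.eval n ∧ ¬ (q : ℤ) ^ 2 ∣ h.eval n := by
  obtain ⟨q, hq, hqB, n, hn⟩ := exists_prime_dvd h hd (max B R.natAbs)
  have hqZ := Nat.prime_iff_prime_int.mp hq
  have hqR : ¬ (q : ℤ) ∣ R := by
    intro h1
    have h2 := Nat.le_of_dvd (Int.natAbs_pos.mpr hR) (Int.natCast_dvd.mp h1)
    have := le_max_right B R.natAbs
    omega
  have hder : ¬ (q : ℤ) ∣ (derivative h).eval n := by
    intro h1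
    apply hqR
    have h2 := congrArg (eval n) hUV
    rw [eval_add, eval_mul, eval_mul, eval_C] at h2
    rw [← h2]
    exact dvd_add (Dvd.dvd.mul_left hn _) (Dvd.dvd.mul_left h1 _)
  refine ⟨q, hq, lt_of_le_of_lt (le_max_left _ _) hqB, ?_⟩
  by_cases h1 : (q : ℤ) ^ 2 ∣ h.eval n
  · obtain ⟨k, hk⟩ := Polynomial.binomExpansion h n (q : ℤ)
    refine ⟨n + q, ?_, ?_⟩
    · rw [hk]
      exact dvd_add (dvd_add hn (dvd_mul_left _ _)) (Dvd.dvd.mul_left (dvd_pow_self _ two_ne_zero) _)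
    · intro h2
      rw [hk] at h2
      have h3 : (q : ℤ) ^ 2 ∣ (derivative h).eval n * q := by
        have h4 := dvd_sub (dvd_sub h2 (Dvd.dvd.mul_left (dvd_refl ((q : ℤ) ^ 2)) k)) h1
        have h5 : h.eval n + (derivative h).eval n * q + k * q ^ 2 - k * q ^ 2 - h.eval n =
          (derivative h).eval n * q := by ring
        rwa [h5] at h4
      rw [sq] at h3
      exact hder ((mul_dvd_mul_iff_right hqZ.ne_zero).1 h3)
  · exact ⟨n, hn, h1⟩

theorem crt {ι : Type} [Fintype ι] (m : ι → ℕ) (hm : ∀ i j, i ≠ j → (m i).Coprime (m j))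
    (r : ι → ℤ) : ∃ x : ℤ, ∀ i, (m i : ℤ) ∣ x - r i := by
  obtain ⟨x, hx⟩ := Ideal.exists_forall_sub_mem_ideal
    (I := fun i => Ideal.span {(m i : ℤ)}) (fun i j hij => by
      show IsCoprime _ _
      rw [Ideal.isCoprime_span_singleton_iff]
      exact_mod_cast Nat.isCoprime_iff_coprime.2 (hm i j hij)) r
  refine ⟨x, fun i => ?_⟩
  have := hx i
  rwa [Ideal.mem_span_singleton] at this

/-- a step such that the other values are not divisible by `q` -/
theorem exists_step (h : ℤ[X]) (q : ℕ) (hq : q.Prime) (hlc : ¬ (q : ℤ) ∣ h.leadingCoeff)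
    (hqB : 6 * h.natDegree + 6 < q) (n : ℤ) (j : Fin 6) :
    ∃ M : ℤ, ∀ i : Fin 6, i ≠ j → ¬ (q : ℤ) ∣ h.eval (n + M * ((i : ℤ) - (j : ℤ))) := by
  classical
  have : Fact q.Prime := ⟨hq⟩
  set hb : (ZMod q)[X] := h.map (Int.castRingHom (ZMod q)) with hhb
  have hb0 : hb ≠ 0 := by
    intro h0
    apply hlc
    rw [← ZMod.intCast_zmod_eq_zero_iff_dvd]
    have := congrArg (fun f : (ZMod q)[X] => f.coeff h.natDegree) h0
    simpa [hhb, coeff_map] using this
  by_contra hno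
  push Not at hno
  have hij : ∀ i : Fin 6, i ≠ j → (((i : ℤ) - (j : ℤ) : ℤ) : ZMod q) ≠ 0 := by
    intro i hi h0
    rw [ZMod.intCast_zmod_eq_zero_iff_dvd] at h0
    have h1 : (i : ℤ) - (j : ℤ) ≠ 0 := by
      intro h2
      apply hi
      apply Fin.ext
      omega
    have h2 := Nat.le_of_dvd (Int.natAbs_pos.mpr h1) (Int.natCast_dvd.mp h0)
    have h3 := i.2
    have h4 := j.2
    omega
  have hcov : (Finset.univ : Finset (ZMod q)) ⊆ (Finset.univ.filter (fun i : Fin 6 => i ≠ j)).biUnion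
      (fun i => hb.roots.toFinset.image
        (fun z => (z - (n : ZMod q)) * ((((i : ℤ) - (j : ℤ) : ℤ) : ZMod q))⁻¹)) := by
    intro M _
    obtain ⟨i, hi, hdv⟩ := hno (M.val : ℤ)
    rw [Finset.mem_biUnion]
    refine ⟨i, Finset.mem_filter.2 ⟨Finset.mem_univ _, hi⟩, ?_⟩
    rw [Finset.mem_image]
    refine ⟨(n : ZMod q) + M * (((i : ℤ) - (j : ℤ) : ℤ) : ZMod q), ?_, ?_⟩
    · rw [Multiset.mem_toFinset, mem_roots hb0, IsRoot]
      rw [← ZMod.intCast_zmod_eq_zero_iff_dvd, ← Pool.Agent.W405.S3.eval_cast] at hdv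
      rw [← hdv]
      congr 1
      push_cast
      rw [ZMod.natCast_zmod_val]
    · rw [add_sub_cancel_left, mul_inv_cancel_right₀ (hij i hi)]
  have hcard := Finset.card_le_card hcov
  rw [Finset.card_univ, ZMod.card] at hcard
  have h1 : ((Finset.univ.filter (fun i : Fin 6 => i ≠ j)).biUnion
      (fun i => hb.roots.toFinset.image
        (fun z => (z - (n : ZMod q)) * ((((i : ℤ) - (j : ℤ) : ℤ) : ZMod q))⁻¹))).card ≤
      6 * h.natDegree := by
    refine Finset.card_biUnion_le.trans ?_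
    have h2 : ∀ i ∈ Finset.univ.filter (fun i : Fin 6 => i ≠ j), (hb.roots.toFinset.image
        (fun z => (z - (n : ZMod q)) * ((((i : ℤ) - (j : ℤ) : ℤ) : ZMod q))⁻¹)).card ≤
        h.natDegree := by
      intro i _
      refine Finset.card_image_le.trans ?_
      refine (Multiset.toFinset_card_le _).trans ((card_roots' hb).trans ?_)
      exact natDegree_map_le
    refine (Finset.sum_le_sum h2).trans ?_
    rw [Finset.sum_const, smul_eq_mul]
    refine Nat.mul_le_mul_right _ ?_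
    refine (Finset.card_filter_le _ _).trans ?_
    simp
  omega

theorem cr6' : ∀ i k : Fin 6, i ≠ k → ∃ l l' : Fin 6, l ≠ i ∧ l ≠ k ∧ l' ≠ i ∧ l' ≠ k ∧
    ((i : ℤ) - l) * (i - l') * ((k - l) * (k - l')) < 676 ∧
    ∀ t : Fin 26, ((i : ℤ) - l) * (i - l') * ((k - l) * (k - l')) ≠ (t : ℤ) * t := by
  decide

theorem cr6 (i k : Fin 6) (hik : i ≠ k) : ∃ l l' : Fin 6, l ≠ i ∧ l ≠ k ∧ l' ≠ i ∧ l' ≠ k ∧
    ¬ IsSquare (((i : ℤ) - l) * (i - l') * ((k - l) * (k - l'))) := by
  obtain ⟨l, l', h1, h2, h3, h4, h5, h6⟩ := cr6' i k hik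
  refine ⟨l, l', h1, h2, h3, h4, ?_⟩
  rintro ⟨r, hr⟩
  have h7 : r.natAbs < 26 := by
    by_contra h7
    push Not at h7
    have h8 : (26 : ℤ) ≤ |r| := by
      rw [Int.abs_eq_natAbs]
      exact_mod_cast h7
    have h9 : r * r = |r| * |r| := (abs_mul_abs_self r).symm
    rw [hr, h9] at h5
    nlinarith
  apply h6 ⟨r.natAbs, h7⟩
  rw [hr]
  simp

/-- the condition on the cross ratios for arithmetic progressions -/
theorem cr_ap (a M : ℤ) (hM : M ≠ 0) :
    Pool.Agent.W623.SecG.CR (fun k : Fin 6 => a + M * (k : ℤ)) := by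
  intro i k hik
  obtain ⟨l, l', h1, h2, h3, h4, h5⟩ := cr6 i k hik
  refine ⟨l, l', h1, h2, h3, h4, fun h => h5 ?_⟩
  apply Pool.Agent.W262.G3.isSquare_of_mul_sq (t := M ^ 2) (pow_ne_zero 2 hM)
  convert h using 1
  ring

theorem ap_injective (a M : ℤ) (hM : M ≠ 0) :
    Function.Injective (fun k : Fin 6 => a + M * (k : ℤ)) := by
  intro i j hij
  have h1 : M * (i : ℤ) = M * (j : ℤ) := by
    have : a + M * (i : ℤ) = a + M * (j : ℤ) := hij
    linarith
  have h2 := mul_left_cancel₀ hM h1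
  apply Fin.ext
  exact_mod_cast h2

/-- six points in arithmetic progression such that `h` takes independent values -/
theorem exists_pts (h U V : ℤ[X]) (R : ℤ) (hR : R ≠ 0) (hUV : U * h + V * derivative h = C R)
    (hd : 0 < h.natDegree) : ∃ (a M : ℤ) (q : Fin 6 → ℕ), M ≠ 0 ∧ Function.Injective q ∧
      (∀ j, (q j).Prime ∧ 2 < q j) ∧ (∀ j, (q j : ℤ) ∣ h.eval (a + M * (j : ℤ)) ∧
        ¬ (q j : ℤ) ^ 2 ∣ h.eval (a + M * (j : ℤ))) ∧
      ∀ i j, i ≠ j → ¬ (q j : ℤ) ∣ h.eval (a + M * (i : ℤ)) := by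
  classical
  set B : ℕ := 6 * h.natDegree + 6 + h.leadingCoeff.natAbs with hB
  have hlc0 : h.leadingCoeff ≠ 0 := by
    intro h0
    rw [leadingCoeff_eq_zero] at h0
    rw [h0, natDegree_zero] at hd
    exact lt_irrefl 0 hd
  -- six primes
  obtain ⟨q, n, hqinj, hq⟩ : ∃ (q : Fin 6 → ℕ) (n : Fin 6 → ℤ), Function.Injective q ∧
      ∀ j, (q j).Prime ∧ B < q j ∧ (q j : ℤ) ∣ h.eval (n j) ∧
        ¬ (q j : ℤ) ^ 2 ∣ h.eval (n j) := by
    have key : ∀ B' : ℕ, ∃ r : ℕ × ℤ, r.1.Prime ∧ B' < r.1 ∧ (r.1 : ℤ) ∣ h.eval r.2 ∧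
        ¬ (r.1 : ℤ) ^ 2 ∣ h.eval r.2 := by
      intro B'
      obtain ⟨q, hq, hqB, n, hn, hn2⟩ := exists_exact h U V R hR hUV hd B'
      exact ⟨(q, n), hq, hqB, hn, hn2⟩
    choose r hr using key
    set s : ℕ → ℕ × ℤ := fun j => Nat.rec (r B) (fun _ t => r t.1) j with hs
    have hs1 : ∀ j, s (j + 1) = r (s j).1 := fun j => rfl
    have hmono : StrictMono (fun j => (s j).1) := strictMono_nat_of_lt_succ fun j => by
      rw [hs1]
      exact (hr _).2.1
    have hsB : ∀ j, (s j).1.Prime ∧ B < (s j).1 ∧ ((s j).1 : ℤ) ∣ h.eval (s j).2 ∧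
        ¬ ((s j).1 : ℤ) ^ 2 ∣ h.eval (s j).2 := by
      intro j
      induction j with
      | zero => exact hr B
      | succ j ih =>
        rw [hs1]
        have := hr (s j).1
        exact ⟨this.1, by omega, this.2.2⟩
    exact ⟨fun j => (s j).1, fun j => (s j).2, fun i j hij => Fin.ext (hmono.injective hij),
      fun j => hsB j⟩
  have hlcq : ∀ j, ¬ (q j : ℤ) ∣ h.leadingCoeff := by
    intro j hdv
    have h1 := Nat.le_of_dvd (Int.natAbs_pos.mpr hlc0) (Int.natCast_dvd.mp hdv)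
    have := (hq j).2.1
    omega
  choose Mj hMj using fun j => exists_step h (q j) (hq j).1 (hlcq j)
    (by have := (hq j).2.1; omega) (n j) j
  have hqc : ∀ i j, i ≠ j → (q i).Coprime (q j) := fun i j hij =>
    (Nat.coprime_primes (hq i).1 (hq j).1).2 fun h => hij (hqinj h)
  obtain ⟨M, hM⟩ := crt q hqc Mj
  obtain ⟨a, ha⟩ := crt (fun j => q j ^ 2) (fun i j hij => (hqc i j hij).pow 2 2)
    (fun j => n j - M * (j : ℤ))
  -- the values
  have hdv1 : ∀ j, ((q j : ℤ) ^ 2) ∣ h.eval (a + M * (j : ℤ)) - h.eval (n j) := by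
    intro j
    refine dvd_trans ?_ (sub_dvd_eval_sub _ _ h)
    have h1 : ((q j : ℤ) ^ 2) ∣ a - (n j - M * (j : ℤ)) := by
      have := ha j
      push_cast at this
      exact this
    have e : a + M * (j : ℤ) - n j = a - (n j - M * (j : ℤ)) := by ring
    rw [e]
    exact h1
  have hdv2 : ∀ i j, (q j : ℤ) ∣ h.eval (a + M * (i : ℤ)) -
      h.eval (n j + Mj j * ((i : ℤ) - (j : ℤ))) := by
    intro i j
    refine dvd_trans ?_ (sub_dvd_eval_sub _ _ h)
    have h1 : (q j : ℤ) ∣ a - (n j - M * (j : ℤ)) := by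
      refine dvd_trans ?_ (ha j)
      push_cast
      exact dvd_pow_self _ two_ne_zero
    have h2 := dvd_add h1 ((hM j).mul_right ((i : ℤ) - (j : ℤ)))
    convert h2 using 1
    ring
  have hexact : ∀ j, (q j : ℤ) ∣ h.eval (a + M * (j : ℤ)) ∧
      ¬ (q j : ℤ) ^ 2 ∣ h.eval (a + M * (j : ℤ)) := by
    intro j
    constructor
    · have h1 := dvd_trans (dvd_pow_self (q j : ℤ) two_ne_zero) (hdv1 j)
      have h2 := dvd_add h1 (hq j).2.2.1
      simpa using h2
    · intro h1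
      apply (hq j).2.2.2
      have h2 := dvd_sub h1 (hdv1 j)
      simpa using h2
  have hother : ∀ i j, i ≠ j → ¬ (q j : ℤ) ∣ h.eval (a + M * (i : ℤ)) := by
    intro i j hij h1
    apply hMj j i hij
    have h2 := dvd_sub h1 (hdv2 i j)
    simpa using h2
  refine ⟨a, M, q, ?_, hqinj, fun j => ⟨(hq j).1, by have := (hq j).2.1; omega⟩, hexact, hother⟩
  rintro rfl
  apply hother 1 0 (by decide)
  have := (hexact 0).1
  simpa using this

end Pool.Agent.Helper47.DM
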