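import Mathlib
import Pool.Graph.R_seed8.W578.TW.UBQ
import Pool.Graph.R_seed8.Helper601.Mertens
import Pool.Agent.Helper47.DM.Ex

/-!
# Primes modulo which given numbers are squares or nonsquares
-/

set_option autoImplicit false

namespace Pool.Agent.Helper47.DM

open Finset Pool.Agent.W262.RK

/-- the numbers `H j` are independent modulo squares: `q j` divides `H j` exactly once and does not
divide the others -/
def Indep (H : Fin 6 → ℤ) (q : Fin 6 → ℕ) : Prop :=
  Function.Injective q ∧ (∀ j, (q j).Prime ∧ 2 < q j) ∧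
    (∀ j, (q j : ℤ) ∣ H j ∧ ¬ (q j : ℤ) ^ 2 ∣ H j) ∧ ∀ i j, i ≠ j → ¬ (q j : ℤ) ∣ H i

variable {H : Fin 6 → ℤ} {q : Fin 6 → ℕ}

theorem Indep.ne_zero (hH : Indep H q) (j : Fin 6) : H j ≠ 0 := by
  intro h0
  exact (hH.2.2.1 j).2 (by rw [h0]; exact dvd_zero _)

/-- primes with prescribed symbols -/
theorem exists_prime_sign (hH : Indep H q) (ε : Fin 6 → ℤ) (hε : ∀ j, ε j = 1 ∨ ε j = -1) (B : ℕ) :
    ∃ p : ℕ, p.Prime ∧ B < p ∧ ∀ j, jacobiSym (H j) p = ε j := by
  classical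
  obtain ⟨hqi, hq, hd, hnd⟩ := hH
  choose H' hH' using fun j => (hd j).1
  have hH0 : ∀ j, H' j ≠ 0 := by
    intro j h0
    apply (hd j).2
    rw [hH', h0, mul_zero]
    exact dvd_zero _
  have hqH' : ∀ i j, ¬ (q j : ℤ) ∣ H' i := by
    intro i j hdv
    by_cases hij : i = j
    · subst hij
      apply (hd i).2
      obtain ⟨t, ht⟩ := hdv
      refine ⟨t, ?_⟩
      rw [hH' i, ht]
      ring
    · apply hnd i j hij
      rw [hH' i]
      exact hdv.mul_left _
  have hν : ∀ j, ∃ ν : ℤ, jacobiSym ν (q j) = ε j ∧ ¬ (q j : ℤ) ∣ ν := by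
    intro j
    have hqF : Fact (q j).Prime := ⟨(hq j).1⟩
    have hqZ := Nat.prime_iff_prime_int.mp (hq j).1
    rcases hε j with h | h
    · refine ⟨1, by rw [h, jacobiSym.one_left], fun h1 => hqZ.not_isUnit (isUnit_of_dvd_one h1)⟩
    · obtain ⟨a, ha⟩ := FiniteField.exists_nonsquare (F := ZMod (q j)) (by
        rw [ZMod.ringChar_zmod_n]
        have := (hq j).2
        omega)
      have ha0 : a ≠ 0 := by
        rintro rfl
        exact ha ⟨0, by simp⟩
      refine ⟨(a.val : ℤ), ?_, ?_⟩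
      · rw [h, ← jacobiSym.legendreSym.to_jacobiSym, legendreSym.eq_neg_one_iff]
        push_cast
        rwa [ZMod.natCast_zmod_val]
      · rw [← ZMod.intCast_zmod_eq_zero_iff_dvd]
        push_cast
        rwa [ZMod.natCast_zmod_val]
  choose ν hν hν0 using hν
  set U : ℕ := ∏ j, (H' j).natAbs with hU
  have hUq : ∀ j, ¬ q j ∣ 8 * U := by
    intro j hdv
    rcases (hq j).1.dvd_mul.1 hdv with h | h
    · have h8 : (8 : ℕ) = 2 ^ 3 := by norm_num
      rw [h8] at h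
      have := (Nat.prime_dvd_prime_iff_eq (hq j).1 Nat.prime_two).1 ((hq j).1.dvd_of_dvd_pow h)
      have := (hq j).2
      omega
    · obtain ⟨i, -, hi⟩ := (Prime.dvd_finsetProd_iff (hq j).1.prime _).1 h
      exact hqH' i j (Int.natCast_dvd.2 hi)
  set m : Option (Fin 6) → ℕ := fun o => o.elim (8 * U) q with hm
  set r : Option (Fin 6) → ℤ := fun o => o.elim 1 ν with hr
  have hmc : ∀ i j, i ≠ j → (m i).Coprime (m j) := by
    intro i j hij
    rcases i with _ | i <;> rcases j with _ | j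
    · exact absurd rfl hij
    · show (8 * U).Coprime (q j)
      exact ((Nat.Prime.coprime_iff_not_dvd (hq j).1).2 (hUq j)).symm
    · show (q i).Coprime (8 * U)
      exact (Nat.Prime.coprime_iff_not_dvd (hq i).1).2 (hUq i)
    · show (q i).Coprime (q j)
      exact (Nat.coprime_primes (hq i).1 (hq j).1).2 fun h => hij (by rw [hqi h])
  obtain ⟨x, hx⟩ := crt m hmc r
  have hx0 : ((8 * U : ℕ) : ℤ) ∣ x - 1 := hx none
  have hxj : ∀ j, (q j : ℤ) ∣ x - ν j := fun j => hx (some j)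
  set N : ℕ := ∏ o, m o with hN
  have hU0 : 8 * U ≠ 0 := by
    apply mul_ne_zero (by norm_num)
    rw [hU, Finset.prod_ne_zero_iff]
    exact fun j _ => Int.natAbs_ne_zero.2 (hH0 j)
  have hN0 : N ≠ 0 := by
    rw [hN, Finset.prod_ne_zero_iff]
    intro o _
    rcases o with _ | j
    · exact hU0
    · exact (hq j).1.ne_zero
  have hmN : ∀ o, m o ∣ N := fun o => Finset.dvd_prod_of_mem m (Finset.mem_univ o)
  have hcop : ∀ o, IsCoprime x (m o : ℤ) := by
    intro o
    rcases o with _ | j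
    · obtain ⟨t, ht⟩ := hx0
      refine ⟨1, -t, ?_⟩
      have : (m none : ℤ) = ((8 * U : ℕ) : ℤ) := rfl
      rw [this]
      linarith
    · have hqZ := Nat.prime_iff_prime_int.mp (hq j).1
      show IsCoprime x (q j : ℤ)
      apply IsCoprime.symm
      rw [Prime.coprime_iff_not_dvd hqZ]
      intro h1
      apply hν0 j
      have := dvd_sub h1 (hxj j)
      simpa using this
  have hcopN : IsCoprime x (N : ℤ) := by
    rw [hN]
    push_cast
    exact IsCoprime.prod_right fun o _ => hcop o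
  have : NeZero N := ⟨hN0⟩
  have hunit : IsUnit ((x : ℤ) : ZMod N) := by
    obtain ⟨a, b, hab⟩ := hcopN
    have h1 : ((a * x + b * N : ℤ) : ZMod N) = 1 := by rw [hab, Int.cast_one]
    push_cast at h1
    rw [ZMod.natCast_self, mul_zero, add_zero] at h1
    exact IsUnit.of_mul_eq_one_right _ h1
  obtain ⟨p, hpB, hp, hpx⟩ := Nat.forall_exists_prime_gt_and_eq_mod hunit B
  refine ⟨p, hp, hpB, fun j => ?_⟩
  have hpd : ∀ o, (m o : ℤ) ∣ (p : ℤ) - x := by
    intro o
    have h1 : (((p : ℤ) - x : ℤ) : ZMod N) = 0 := by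
      push_cast
      rw [hpx, sub_self]
    rw [ZMod.intCast_zmod_eq_zero_iff_dvd] at h1
    exact dvd_trans (by exact_mod_cast hmN o) h1
  have hp1 : (8 * U) ∣ p - 1 := by
    have h1 : ((8 * U : ℕ) : ℤ) ∣ (p : ℤ) - 1 := by
      have h2 := dvd_add (hpd none) hx0
      have h3 : ((p : ℤ) - x) + (x - 1) = (p : ℤ) - 1 := by ring
      rw [h3] at h2
      exact h2
    have h2 : ((p - 1 : ℕ) : ℤ) = (p : ℤ) - 1 := by
      rw [Nat.cast_sub hp.one_lt.le]; rfl
    rw [← h2] at h1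
    exact_mod_cast h1
  have hmod : ∀ n, n ∣ 8 * U → p ≡ 1 [MOD n] := by
    intro n hn
    exact ((Nat.modEq_iff_dvd' hp.one_lt.le).2 (hn.trans hp1)).symm
  have hp4 : p % 4 = 1 := hmod 4 (Dvd.dvd.mul_right (by norm_num) _)
  have hpodd : Odd p := Nat.odd_iff.2 (by omega)
  have hJ' : jacobiSym (H' j) p = 1 := by
    rw [jacobiSym.mod_right _ hpodd]
    have h1 : 4 * (H' j).natAbs ∣ 8 * U := by
      have h2 : (H' j).natAbs ∣ U := Finset.dvd_prod_of_mem (fun j => (H' j).natAbs) (Finset.mem_univ j)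
      exact Nat.mul_dvd_mul (by norm_num) h2
    have h2 : 1 < 4 * (H' j).natAbs := by
      have := Int.natAbs_pos.2 (hH0 j)
      omega
    have h3 : p % (4 * (H' j).natAbs) = 1 % (4 * (H' j).natAbs) := hmod _ h1
    rw [h3, Nat.mod_eq_of_lt h2, jacobiSym.one_right]
  have hJq : jacobiSym (q j) p = ε j := by
    have hqo : Odd (q j) := (hq j).1.odd_of_ne_two (by have := (hq j).2; omega)
    rw [← jacobiSym.quadratic_reciprocity_one_mod_four hp4 hqo, ← hν j]
    apply jacobiSym.mod_left'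
    have h1 : (q j : ℤ) ∣ (p : ℤ) - ν j := by
      have h2 := dvd_add (hpd (some j)) (hxj j)
      have h3 : ((p : ℤ) - x) + (x - ν j) = (p : ℤ) - ν j := by ring
      rw [h3] at h2
      exact h2
    exact Int.emod_eq_emod_iff_emod_sub_eq_zero.2 (Int.emod_eq_zero_of_dvd h1)
  rw [hH' j, jacobiSym.mul_left, hJ', hJq, mul_one]

/-- products of the `H 0 * H j` are not squares -/
theorem not_square (hH : Indep H q) (T : Finset (Fin 6)) (h0 : (0 : Fin 6) ∉ T) (hT : T.Nonempty) :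
    ¬ IsSquare (∏ j ∈ T, (H 0 * H j)) := by
  classical
  obtain ⟨-, hq, hd, hnd⟩ := hH
  obtain ⟨j, hj⟩ := hT
  have hj0 : j ≠ 0 := by rintro rfl; exact h0 hj
  have hqZ := Nat.prime_iff_prime_int.mp (hq j).1
  rintro ⟨t, ht⟩
  rw [← Finset.mul_prod_erase _ _ hj] at ht
  obtain ⟨k, hk⟩ := (hd j).1
  have h1 : (q j : ℤ) ∣ t := by
    have h2 : (q j : ℤ) ∣ t * t := by
      rw [← ht, hk]
      exact ⟨H 0 * k * ∏ x ∈ T.erase j, H 0 * H x, by ring⟩
    rcases hqZ.dvd_or_dvd h2 with h | h <;> exact h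
  obtain ⟨u, hu⟩ := h1
  have h3 : (q j : ℤ) ∣ H 0 * k * ∏ x ∈ T.erase j, H 0 * H x := by
    refine ⟨u * u, ?_⟩
    apply mul_left_cancel₀ hqZ.ne_zero
    calc (q j : ℤ) * (H 0 * k * ∏ x ∈ T.erase j, H 0 * H x) =
          (H 0 * H j * ∏ x ∈ T.erase j, H 0 * H x) := by rw [hk]; ring
      _ = t * t := ht
      _ = _ := by rw [hu]; ring
  rcases hqZ.dvd_or_dvd h3 with h3 | h3
  · rcases hqZ.dvd_or_dvd h3 with h3 | h3
    · exact hnd 0 j (Ne.symm hj0) h3
    · apply (hd j).2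
      obtain ⟨v, hv⟩ := h3
      exact ⟨v, by rw [hk, hv]; ring⟩
  · rw [Prime.dvd_finsetProd_iff hqZ] at h3
    obtain ⟨x, hx, hx'⟩ := h3
    rcases hqZ.dvd_or_dvd hx' with h4 | h4
    · exact hnd 0 j (Ne.symm hj0) h4
    · exact hnd x j (Finset.ne_of_mem_erase hx) h4

theorem Jr_mul (a b : ℤ) (p : ℕ) : Jr (a * b) p = Jr a p * Jr b p := by
  unfold Jr
  rw [jacobiSym.mul_left]
  push_cast
  ring

theorem Jr_prod {ι : Type} (T : Finset ι) (f : ι → ℤ) (p : ℕ) :
    Jr (∏ j ∈ T, f j) p = ∏ j ∈ T, Jr (f j) p := by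
  classical
  induction T using Finset.induction_on with
  | empty => simp [Jr, jacobiSym.one_left]
  | insert a T ha ih => rw [prod_insert ha, prod_insert ha, Jr_mul, ih]

theorem Jr_ge (a : ℤ) (p : ℕ) : -1 ≤ Jr a p := by
  unfold Jr
  rcases jacobiSym.trichotomy a p with h | h | h <;> rw [h] <;> norm_num

/-- the density of the primes modulo which all `H j` are nonsquares is at most `1 / 32` -/
theorem bad_sum (hH : Indep H q) : ∃ C : ℝ, 0 ≤ C ∧ ∀ y : ℕ,
    ∑ p ∈ (PS 2 y).filter (fun p => ∀ j, jacobiSym (H j) p = -1), (1 : ℝ) / p ≤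
      1 / 32 * ∑ p ∈ PS 2 y, (1 : ℝ) / p + C := by
  classical
  obtain ⟨C, hC⟩ := Pool.Agent.W578.TW.UBQ.ubq 2 le_rfl
  set s : Finset (Fin 6) := univ.erase 0 with hs
  have hs0 : (0 : Fin 6) ∉ s := by rw [hs]; simp
  have hcard : s.card = 5 := by rw [hs]; simp
  set B : Finset (Fin 6) → ℝ := fun T =>
    |Real.log (Real.log (((∏ j ∈ T, (H 0 * H j)).natAbs : ℝ) + 3)) + C| with hB
  have hBT : ∀ T ∈ s.powerset.erase ∅, ∀ y : ℕ,
      ∑ p ∈ PS 2 y, (∏ j ∈ T, Jr (H 0 * H j) p) / p ≤ B T := by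
    intro T hT y
    rw [mem_erase, mem_powerset] at hT
    have h1 := hC (∏ j ∈ T, (H 0 * H j)) (not_square hH T (fun h => hs0 (hT.2 h))
      (nonempty_iff_ne_empty.2 hT.1)) y
    simp_rw [Jr_prod] at h1
    exact h1.trans (le_abs_self _)
  refine ⟨1 / 32 * ∑ T ∈ s.powerset.erase ∅, B T, by
    have : 0 ≤ ∑ T ∈ s.powerset.erase ∅, B T := sum_nonneg fun T _ => abs_nonneg _
    positivity, fun y => ?_⟩
  have h1 : ∑ p ∈ (PS 2 y).filter (fun p => ∀ j, jacobiSym (H j) p = -1), (1 : ℝ) / p ≤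
      ∑ p ∈ PS 2 y, (1 / 32 : ℝ) * ((∏ j ∈ s, (1 + Jr (H 0 * H j) p)) / p) := by
    rw [sum_filter]
    refine sum_le_sum fun p _ => ?_
    split_ifs with hp
    · have h2 : ∀ j ∈ s, (1 + Jr (H 0 * H j) p) = 2 := by
        intro j _
        rw [Jr_mul]
        unfold Jr
        rw [hp 0, hp j]
        norm_num
      rw [prod_congr rfl h2, prod_const, hcard]
      norm_num
      ring_nf
      exact le_rfl
    · have h2 : 0 ≤ ∏ j ∈ s, (1 + Jr (H 0 * H j) p) := prod_nonneg fun j _ => by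
        have := Jr_ge (H 0 * H j) p
        linarith
      positivity
  refine h1.trans ?_
  rw [← mul_sum, ← mul_add]
  refine mul_le_mul_of_nonneg_left ?_ (by norm_num)
  have h3 : ∀ p ∈ PS 2 y, (∏ j ∈ s, (1 + Jr (H 0 * H j) p)) / (p : ℝ) =
      ∑ T ∈ s.powerset, (∏ j ∈ T, Jr (H 0 * H j) p) / p := by
    intro p _
    rw [prod_one_add, sum_div]
  rw [sum_congr rfl h3, sum_comm, ← add_sum_erase _ _ (empty_mem_powerset s)]
  refine add_le_add ?_ (sum_le_sum fun T hT => hBT T hT y)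
  simp

/-- lower bound for the sum over the primes modulo which some `H j` is a square -/
theorem good_sum (hH : Indep H q) (W : ℕ) (hW : W ≠ 0) (hHW : ∀ j, 4 * (H j).natAbs ∣ W) :
    ∃ C : ℝ, ∀ y : ℕ, 3 ≤ y → 31 / 32 * Real.log (Real.log y) - C ≤
      ∑ p ∈ (Icc 1 y).filter (fun p => p.Prime ∧ (p.Coprime W ∧ ∃ j, jacobiSym (H j) p = 1)),
        (1 : ℝ) / p := by
  classical
  obtain ⟨C, hC0, hC⟩ := bad_sum hH
  obtain ⟨C1, hC1⟩ := Pool.Agent.Helper601.Mertens.mertens_inv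
  set A : ℝ := ∑ p ∈ W.primeFactors, (1 : ℝ) / p with hA
  refine ⟨31 / 32 * C1 + C + A, fun y hy => ?_⟩
  set P : Finset ℕ := (Icc 1 y).filter
    (fun p => p.Prime ∧ (p.Coprime W ∧ ∃ j, jacobiSym (H j) p = 1)) with hP
  have h2W : 2 ∣ W := by
    refine dvd_trans ?_ (hHW 0)
    exact Dvd.dvd.mul_right (by norm_num) _
  have hsub : (Icc 1 y).filter Nat.Prime ⊆ P ∪ (W.primeFactors ∪
      (PS 2 y).filter (fun p => ∀ j, jacobiSym (H j) p = -1)) := by
    intro p hp
    rw [mem_filter] at hp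
    rw [mem_union, mem_union]
    by_cases h1 : p ∣ W
    · right; left
      exact Nat.mem_primeFactors.2 ⟨hp.2, h1, hW⟩
    have hcop : p.Coprime W := (Nat.Prime.coprime_iff_not_dvd hp.2).2 h1
    by_cases h2 : ∃ j, jacobiSym (H j) p = 1
    · left
      rw [hP, mem_filter]
      exact ⟨hp.1, hp.2, hcop, h2⟩
    · right; right
      push Not at h2
      rw [mem_filter]
      refine ⟨?_, fun j => ?_⟩
      · unfold PS
        rw [mem_filter, mem_Ioc]
        rw [mem_Icc] at hp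
        refine ⟨⟨?_, hp.1.2⟩, hp.2⟩
        have : p ≠ 2 := by rintro rfl; exact h1 h2W
        have := hp.2.two_le
        omega
      · have hg : (H j).gcd p = 1 := by
          rw [Int.gcd_comm]
          refine (Nat.Prime.coprime_iff_not_dvd hp.2).2 fun h3 => h1 ?_
          exact (h3.trans (dvd_mul_left _ _)).trans (hHW j)
        exact (jacobiSym.eq_one_or_neg_one hg).resolve_left (h2 j)
  have hnn : ∀ p : ℕ, (0 : ℝ) ≤ 1 / p := fun p => by positivity
  have h1 := sum_le_sum_of_subset_of_nonneg hsub (fun p _ _ => hnn p)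
  have hun : ∀ S T : Finset ℕ, ∑ p ∈ S ∪ T, (1 : ℝ) / p ≤ ∑ p ∈ S, (1 : ℝ) / p + ∑ p ∈ T, (1 : ℝ) / p := by
    intro S T
    rw [← sum_union_inter]
    have := sum_nonneg (s := S ∩ T) fun p _ => hnn p
    linarith
  have h2 := h1.trans ((hun _ _).trans (add_le_add_right (hun _ _) _))
  have h3 := hC y
  have h4 : ∑ p ∈ PS 2 y, (1 : ℝ) / p ≤ ∑ p ∈ (Icc 1 y).filter Nat.Prime, (1 : ℝ) / p := by
    apply sum_le_sum_of_subset_of_nonneg
    · intro p hp
      unfold PS at hp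
      rw [mem_filter, mem_Ioc] at hp
      rw [mem_filter, mem_Icc]
      exact ⟨⟨by omega, hp.1.2⟩, hp.2⟩
    · exact fun p _ _ => hnn p
  have h5 := (abs_le.1 (hC1 y hy)).1
  linarith

end Pool.Agent.Helper47.DM
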