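import Mathlib
import Pool.Agent.Helper47.DM.Sgn
import Pool.Graph.R_pool_sql_team_seeded_3997aac3.Q68.EB.Cntlm
import Pool.Graph.R_pool_sql_team_seeded_3997aac3.Q154.EL.CH1

/-!
# Twists outside of a sparse set
-/

set_option autoImplicit false

namespace Pool.Agent.Helper47.DM

open Finset
open Pool.Agent.Q51.EL (pr)

variable {H : Fin 6 → ℤ} {q : Fin 6 → ℕ}

/-- the primes `≡ 1` modulo `W` -/
theorem primes_one (W : ℕ) (hW : W ≠ 0) : ∃ c Y0 : ℝ, 0 < c ∧ ∀ Y : ℝ, Y0 ≤ Y →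
    c * Y / Real.log Y ≤ (((pr Y).filter (fun p => p % W = 1 % W)).card : ℝ) := by
  classical
  obtain ⟨c, Y0, hc, h⟩ := Pool.Agent.Q154.EL.ch1 Polynomial.X (by
    rw [Polynomial.map_X]; exact Polynomial.irreducible_X) W hW
  refine ⟨c, Y0, hc, fun Y hY => (h Y hY).trans ?_⟩
  refine Nat.cast_le.2 (card_le_card ?_)
  intro p hp
  rw [mem_filter] at hp ⊢
  exact ⟨hp.1, hp.2.1⟩

open Classical in
/-- lower bound for the number of the twists -/
theorem low (hH : Indep H q) (W : ℕ) (hW : W ≠ 0) (hHW : ∀ j, 4 * (H j).natAbs ∣ W) :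
    ∃ c : ℝ, ∃ Y0 : ℕ, 0 < c ∧ ∀ Y : ℕ, Y0 ≤ Y →
    c * Y * Real.log Y ^ (-(1 / 8) : ℝ) ≤
    (((Icc 1 Y).filter (fun k : ℕ => Squarefree k ∧ k.Coprime W ∧
      (∀ p : ℕ, p.Prime → p ∣ k → ∃ j, jacobiSym (H j) p = 1) ∧ k % W = 1 % W)).card : ℝ) := by
  obtain ⟨P, hP⟩ : ∃ P : Set ℕ, P = {p : ℕ | p.Prime ∧ (p.Coprime W ∧ ∃ j, jacobiSym (H j) p = 1)} :=
    ⟨_, rfl⟩
  have hPm : ∀ p : ℕ, p ∈ P ↔ p.Prime ∧ (p.Coprime W ∧ ∃ j, jacobiSym (H j) p = 1) := by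
    intro p; rw [hP]; rfl
  obtain ⟨S, hS⟩ : ∃ S : Set ℕ, S = {p : ℕ | p.Prime ∧ p % W = 1 % W} := ⟨_, rfl⟩
  have hSm : ∀ p : ℕ, p ∈ S ↔ p.Prime ∧ p % W = 1 % W := by intro p; rw [hS]; rfl
  have h2W : 2 ∣ W := by
    refine dvd_trans ?_ (hHW 0)
    exact Dvd.dvd.mul_right (by norm_num) _
  have hSP : S ⊆ P := by
    intro p hp
    rw [hSm] at hp
    rw [hPm]
    obtain ⟨hp, hpW⟩ := hp
    have hcop : p.Coprime W := by
      have h1 : Nat.gcd p W = 1 := by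
        rw [Nat.gcd_comm, Nat.gcd_rec, hpW, ← Nat.gcd_rec]
        exact Nat.gcd_one_right _
      exact h1
    have hodd : Odd p := by
      rw [← Nat.not_even_iff_odd, even_iff_two_dvd]
      intro h2
      have := Nat.dvd_gcd h2 h2W
      rw [hcop.gcd_eq_one] at this
      omega
    refine ⟨hp, hcop, 0, ?_⟩
    rw [jacobiSym.mod_right _ hodd]
    have h3 : p % (4 * (H 0).natAbs) = 1 % (4 * (H 0).natAbs) := Nat.ModEq.of_dvd (hHW 0) hpW
    have h2 : 1 < 4 * (H 0).natAbs := by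
      have := Int.natAbs_pos.2 (hH.ne_zero 0)
      omega
    rw [h3, Nat.mod_eq_of_lt h2, jacobiSym.one_right]
  obtain ⟨c1, Y1, hc1, h1⟩ := primes_one W hW
  obtain ⟨c, X0, hc, hcn⟩ := Pool.Agent.Q68.EB.cntlm W P S hW hSP (fun p hp => ((hPm p).1 hp).1)
    (fun p hp => ((hSm p).1 hp).2) ⟨c1, Y1, hc1, fun Y hY => by
      refine (h1 Y hY).trans (le_of_eq ?_)
      congr 2
      refine filter_congr fun p hp => ?_
      unfold pr at hp
      rw [mem_filter] at hp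
      rw [hSm]
      tauto⟩
  obtain ⟨C, hC⟩ := good_sum hH W hW hHW
  refine ⟨c * Real.exp (-C), max (max ⌈X0⌉₊ 3) 3, by positivity, fun Y hY => ?_⟩
  have hY3 : 3 ≤ Y := (le_max_right _ _).trans hY
  have hYX : X0 ≤ (Y : ℝ) := (Nat.le_ceil X0).trans (by
    exact_mod_cast ((le_max_left _ _).trans (le_max_left _ _)).trans hY)
  have h2 := hcn Y hYX
  rw [Nat.floor_natCast] at h2
  have hYr : (3 : ℝ) ≤ Y := by exact_mod_cast hY3
  have hlog : 0 < Real.log (Y : ℝ) := Real.log_pos (by linarith)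
  have hlog1 : 1 ≤ Real.log (Y : ℝ) := by
    rw [Real.le_log_iff_exp_le (by linarith)]
    exact (Real.exp_one_lt_d9.le.trans (by norm_num)).trans hYr
  have h3 : ∑ p ∈ (pr (Y : ℝ)).filter (fun p : ℕ => p ∈ P), (1 : ℝ) / (p : ℝ) =
      ∑ p ∈ (Icc 1 Y).filter (fun p => p.Prime ∧ (p.Coprime W ∧ ∃ j, jacobiSym (H j) p = 1)),
        (1 : ℝ) / p := by
    refine sum_congr ?_ fun _ _ => rfl
    unfold pr
    rw [Nat.floor_natCast, filter_filter]
    refine filter_congr fun p hp => ?_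
    rw [hPm]
    tauto
  rw [h3] at h2
  have h4 := hC Y hY3
  have h5 : Real.log Y ^ (7 / 8 : ℝ) * Real.exp (-C) ≤
      Real.exp (∑ p ∈ (Icc 1 Y).filter
        (fun p => p.Prime ∧ (p.Coprime W ∧ ∃ j, jacobiSym (H j) p = 1)), (1 : ℝ) / p) := by
    rw [Real.rpow_def_of_pos hlog, ← Real.exp_add]
    apply Real.exp_le_exp.2
    have h6 : 0 ≤ Real.log (Real.log Y) := Real.log_nonneg hlog1
    linarith
  have h6 : c * Real.exp (-C) * Y * Real.log Y ^ (-(1 / 8) : ℝ) =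
      c * Y / Real.log Y * (Real.log Y ^ (7 / 8 : ℝ) * Real.exp (-C)) := by
    have h7 : Real.log Y ^ (7 / 8 : ℝ) = Real.log Y * Real.log Y ^ (-(1 / 8) : ℝ) := by
      rw [show (7 / 8 : ℝ) = 1 + (-(1 / 8)) by norm_num, Real.rpow_add hlog, Real.rpow_one]
    rw [h7]
    field_simp
  rw [h6]
  refine (mul_le_mul_of_nonneg_left h5 (by positivity)).trans (h2.trans ?_)
  refine Nat.cast_le.2 (card_le_card ?_)
  intro k hk
  rw [mem_filter] at hk ⊢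
  obtain ⟨k1, k2, k3, k4, k5⟩ := hk
  exact ⟨k1, k2, k3, fun p hp hpk => ((hPm p).1 (k4 p hp hpk)).2.2, k5⟩

/-- twists outside of a sparse set -/
theorem exists_twist (hH : Indep H q) (W : ℕ) (hW : W ≠ 0) (hHW : ∀ j, 4 * (H j).natAbs ∣ W)
    (D0 : ℤ) (hD0 : Squarefree D0) (hDW : D0 ∣ (W : ℤ)) (Q : ℤ → Prop)
    (hQ : ∃ C : ℝ, ∀ X : ℕ, 3 ≤ X → ({d : ℤ | d.natAbs ≤ X ∧ Squarefree d ∧ Q d}.ncard : ℝ) ≤
      C * X * (Real.log X) ^ (-(1 / 5) : ℝ)) (B : ℕ) :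
    ∃ k : ℕ, 0 < k ∧ k.Coprime W ∧ k % W = 1 % W ∧ Squarefree (D0 * (k : ℤ)) ∧
      (∀ p : ℕ, p.Prime → p ∣ k → ∃ j, jacobiSym (H j) p = 1) ∧ ¬ Q (D0 * k) ∧
      B < (D0 * (k : ℤ)).natAbs := by
  classical
  obtain ⟨c, Y0, hc, hlow⟩ := low hH W hW hHW
  obtain ⟨C, hC⟩ := hQ
  have hD00 : D0 ≠ 0 := hD0.ne_zero
  set M : ℕ := D0.natAbs with hM
  have hM1 : 1 ≤ M := Nat.one_le_iff_ne_zero.2 (Int.natAbs_ne_zero.2 hD00)
  have hM1r : (1 : ℝ) ≤ M := by exact_mod_cast hM1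
  -- a large Y
  obtain ⟨Y, hY0, hY3, hYl⟩ : ∃ Y : ℕ, Y0 ≤ Y ∧ 3 ≤ Y ∧
      |C| * M * Real.log Y ^ (-(3 / 40) : ℝ) + (B + 1) * (Real.log Y ^ (1 / 8 : ℝ) / Y) < c := by
    have hlt : Filter.Tendsto (fun Y : ℕ => Real.log (Y : ℝ)) Filter.atTop Filter.atTop :=
      Real.tendsto_log_atTop.comp tendsto_natCast_atTop_atTop
    have h1 : Filter.Tendsto (fun Y : ℕ => |C| * M * Real.log (Y : ℝ) ^ (-(3 / 40) : ℝ)) Filter.atTop
        (nhds (|C| * M * 0)) :=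
      ((tendsto_rpow_neg_atTop (by norm_num : (0 : ℝ) < 3 / 40)).comp hlt).const_mul _
    have h2 : Filter.Tendsto (fun Y : ℕ => ((B : ℝ) + 1) * (Real.log (Y : ℝ) ^ (1 / 8 : ℝ) / Y))
        Filter.atTop (nhds (((B : ℝ) + 1) * 0)) := by
      refine Filter.Tendsto.const_mul _ ?_
      have h3 : Filter.Tendsto (fun x : ℝ => Real.log x ^ (1 / 8 : ℝ) / x) Filter.atTop (nhds 0) := by
        have := (isLittleO_log_rpow_rpow_atTop (1 / 8 : ℝ) (by norm_num : (0 : ℝ) < 1)).tendsto_div_nhds_zero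
        simpa using this
      exact h3.comp tendsto_natCast_atTop_atTop
    have h3 := h1.add h2
    rw [mul_zero, mul_zero, add_zero] at h3
    have h4 := (h3.eventually (gt_mem_nhds hc)).and
      ((Filter.eventually_ge_atTop Y0).and (Filter.eventually_ge_atTop 3))
    obtain ⟨Y, hY⟩ := h4.exists
    exact ⟨Y, hY.2.1, hY.2.2, hY.1⟩
  have hYr : (3 : ℝ) ≤ Y := by exact_mod_cast hY3
  have hlog1 : 1 ≤ Real.log (Y : ℝ) := by
    rw [Real.le_log_iff_exp_le (by linarith)]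
    exact (Real.exp_one_lt_d9.le.trans (by norm_num)).trans hYr
  have hlog : 0 < Real.log (Y : ℝ) := by linarith
  set X : ℕ := M * Y with hX
  have hYX : Y ≤ X := Nat.le_mul_of_pos_left _ (by omega)
  have hX3 : 3 ≤ X := hY3.trans hYX
  by_contra hno
  push Not at hno
  have h1 := hlow Y hY0
  have h2 := hC X hX3
  -- the injection
  set T : Finset ℕ := (Icc 1 Y).filter (fun k : ℕ => Squarefree k ∧ k.Coprime W ∧
      (∀ p : ℕ, p.Prime → p ∣ k → ∃ j, jacobiSym (H j) p = 1) ∧ k % W = 1 % W) with hT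
  have hfin : {d : ℤ | d.natAbs ≤ X ∧ Squarefree d ∧ Q d}.Finite := by
    refine (Finset.finite_toSet (Finset.Icc (-(X : ℤ)) X)).subset ?_
    rintro d ⟨hd1, -⟩
    rw [Finset.mem_coe, Finset.mem_Icc]
    omega
  have h3 : (T.card : ℝ) ≤ ({d : ℤ | d.natAbs ≤ X ∧ Squarefree d ∧ Q d}.ncard : ℝ) + (B + 1) := by
    have h4 : T ⊆ (T.filter (fun k : ℕ => Q (D0 * (k : ℤ)))) ∪ (Icc 0 B) := by
      intro k hk
      have hk' := hk
      rw [hT, mem_filter, mem_Icc] at hk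
      obtain ⟨⟨m1, m2⟩, m3, m4, m5, m6⟩ := hk
      rw [mem_union, mem_filter, mem_Icc]
      by_cases hQk : Q (D0 * (k : ℤ))
      · exact Or.inl ⟨hk', hQk⟩
      · right
        have hcop : IsCoprime D0 (k : ℤ) := by
          have h8 : IsCoprime (W : ℤ) (k : ℤ) := by
            rw [Nat.isCoprime_iff_coprime]; exact m4.symm
          exact h8.of_isCoprime_of_dvd_left hDW
        have hsq : Squarefree (D0 * (k : ℤ)) := by
          rw [squarefree_mul_iff]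
          refine ⟨hcop.isRelPrime, hD0, ?_⟩
          exact_mod_cast (Int.squarefree_natCast.mpr m3)
        have h5 := hno k (by omega) m4 m6 hsq m5 hQk
        refine ⟨Nat.zero_le _, ?_⟩
        rw [Int.natAbs_mul, Int.natAbs_natCast] at h5
        exact (Nat.le_mul_of_pos_left k (by omega : 0 < D0.natAbs)).trans h5
    have h5 := (card_le_card h4).trans (card_union_le _ _)
    have h6 : (T.filter (fun k : ℕ => Q (D0 * (k : ℤ)))).card ≤
        {d : ℤ | d.natAbs ≤ X ∧ Squarefree d ∧ Q d}.ncard := by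
      rw [← Set.ncard_coe_finset]
      refine Set.ncard_le_ncard_of_injOn (fun k : ℕ => D0 * (k : ℤ)) (fun k hk => ?_) ?_ hfin
      · rw [Finset.mem_coe, mem_filter] at hk
        obtain ⟨hk1, hk2⟩ := hk
        rw [hT, mem_filter, mem_Icc] at hk1
        obtain ⟨⟨m1, m2⟩, m3, m4, m5, m6⟩ := hk1
        refine ⟨?_, ?_, hk2⟩
        · rw [Int.natAbs_mul, Int.natAbs_natCast, hX]
          exact Nat.mul_le_mul_left _ m2
        · have hcop : IsCoprime D0 (k : ℤ) := by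
            have h8 : IsCoprime (W : ℤ) (k : ℤ) := by
              rw [Nat.isCoprime_iff_coprime]; exact m4.symm
            exact h8.of_isCoprime_of_dvd_left hDW
          rw [squarefree_mul_iff]
          refine ⟨hcop.isRelPrime, hD0, ?_⟩
          exact_mod_cast (Int.squarefree_natCast.mpr m3)
      · intro k _ k' _ h
        have h8 : D0 * (k : ℤ) = D0 * (k' : ℤ) := h
        exact_mod_cast mul_left_cancel₀ hD00 h8
    have h7 : (Icc 0 B).card = B + 1 := by simp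
    rw [h7] at h5
    have h8 : T.card ≤ {d : ℤ | d.natAbs ≤ X ∧ Squarefree d ∧ Q d}.ncard + (B + 1) := by omega
    exact_mod_cast h8
  have h4 : Real.log (X : ℝ) ^ (-(1 / 5) : ℝ) ≤ Real.log (Y : ℝ) ^ (-(1 / 5) : ℝ) := by
    apply Real.rpow_le_rpow_of_nonpos hlog _ (by norm_num)
    apply Real.log_le_log (by linarith)
    exact_mod_cast hYX
  have h5 : C * X * Real.log (X : ℝ) ^ (-(1 / 5) : ℝ) ≤
      |C| * M * Y * Real.log (Y : ℝ) ^ (-(1 / 5) : ℝ) := by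
    have e1 : (X : ℝ) = M * Y := by rw [hX]; push_cast; ring
    have h6 : 0 ≤ Real.log (X : ℝ) ^ (-(1 / 5) : ℝ) := Real.rpow_nonneg (Real.log_natCast_nonneg _) _
    calc C * X * Real.log (X : ℝ) ^ (-(1 / 5) : ℝ) ≤ |C| * X * Real.log (X : ℝ) ^ (-(1 / 5) : ℝ) := by
          gcongr
          exact le_abs_self C
      _ ≤ |C| * X * Real.log (Y : ℝ) ^ (-(1 / 5) : ℝ) := by gcongr
      _ = _ := by rw [e1]; ring
  have h6 : c * Y * Real.log Y ^ (-(1 / 8) : ℝ) ≤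
      |C| * M * Y * Real.log (Y : ℝ) ^ (-(1 / 5) : ℝ) + (B + 1) := by
    linarith
  have h7 : Real.log (Y : ℝ) ^ (-(1 / 5) : ℝ) =
      Real.log (Y : ℝ) ^ (-(3 / 40) : ℝ) * Real.log (Y : ℝ) ^ (-(1 / 8) : ℝ) := by
    rw [← Real.rpow_add hlog]
    norm_num
  have h8 : (1 : ℝ) = Real.log (Y : ℝ) ^ (1 / 8 : ℝ) * Real.log (Y : ℝ) ^ (-(1 / 8) : ℝ) := by
    rw [← Real.rpow_add hlog]
    norm_num
  have hpos : 0 < Real.log (Y : ℝ) ^ (-(1 / 8) : ℝ) := Real.rpow_pos_of_pos hlog _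
  have h9 : c * (Y * Real.log Y ^ (-(1 / 8) : ℝ)) ≤
      (|C| * M * Real.log Y ^ (-(3 / 40) : ℝ) + (B + 1) * (Real.log Y ^ (1 / 8 : ℝ) / Y)) *
      (Y * Real.log Y ^ (-(1 / 8) : ℝ)) := by
    have hY0' : (Y : ℝ) ≠ 0 := by linarith
    have e1 : (|C| * M * Real.log Y ^ (-(3 / 40) : ℝ) + (B + 1) * (Real.log Y ^ (1 / 8 : ℝ) / Y)) *
      (Y * Real.log Y ^ (-(1 / 8) : ℝ)) =
        |C| * M * Y * (Real.log (Y : ℝ) ^ (-(3 / 40) : ℝ) * Real.log (Y : ℝ) ^ (-(1 / 8) : ℝ)) +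
        (B + 1) * (Real.log (Y : ℝ) ^ (1 / 8 : ℝ) * Real.log (Y : ℝ) ^ (-(1 / 8) : ℝ)) := by
      field_simp
    rw [e1, ← h7, ← h8]
    calc c * (Y * Real.log Y ^ (-(1 / 8) : ℝ)) = c * Y * Real.log Y ^ (-(1 / 8) : ℝ) := by ring
      _ ≤ _ := by rw [mul_one]; exact h6
  have h10 : (|C| * M * Real.log Y ^ (-(3 / 40) : ℝ) + (B + 1) * (Real.log Y ^ (1 / 8 : ℝ) / Y)) *
      (Y * Real.log Y ^ (-(1 / 8) : ℝ)) < c * (Y * Real.log Y ^ (-(1 / 8) : ℝ)) := by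
    apply mul_lt_mul_of_pos_right hYl
    exact mul_pos (by linarith) hpos
  linarith

end Pool.Agent.Helper47.DM
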