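import Mathlib
import Pool.Agent.Helper47.DM.Sgn
import Pool.Agent.Helper47.WA.Dense

/-!
# A number in given square classes
-/

set_option autoImplicit false

namespace Pool.Agent.Helper47.DM

open Finset

variable {H : Fin 6 → ℤ} {q : Fin 6 → ℕ}

theorem J_congr (a : ℤ) (W n m : ℕ) (hW : 4 * a.natAbs ∣ W) (hn : Odd n) (hm : Odd m)
    (h : n ≡ m [MOD W]) : jacobiSym a n = jacobiSym a m := by
  rw [jacobiSym.mod_right _ hn, jacobiSym.mod_right _ hm]
  have h1 : n % (4 * a.natAbs) = m % (4 * a.natAbs) := Nat.ModEq.of_dvd hW h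
  rw [h1]

/-- a squarefree number which has the square class of `Ds` at the primes in `T` and over `ℝ`, whose
other prime factors are primes modulo which some `H j` is a square -/
theorem exists_D0 (hH : Indep H q) (T : Finset ℕ) (hT : ∀ p ∈ T, p.Prime) (h2 : 2 ∈ T)
    (hHT : ∀ j, ∀ p : ℕ, p.Prime → (p : ℤ) ∣ H j → p ∈ T) (Ds : ℤ) (hDs : Squarefree Ds) :
    ∃ (D0 : ℤ) (p1 p2 : ℕ), Squarefree D0 ∧ p1.Prime ∧ p2.Prime ∧ p1 ∉ T ∧ p2 ∉ T ∧
      (p1 : ℤ) ∣ D0 ∧ (p2 : ℤ) ∣ D0 ∧ (∀ j, j ≠ 0 → jacobiSym (H j) p1 = -1) ∧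
      jacobiSym (H 0) p2 = -1 ∧ 0 < D0 * Ds ∧
      (∀ (p : ℕ) [Fact p.Prime], p ∈ T → ∃ s : ℚ_[p], s ≠ 0 ∧ s ^ 2 = ((D0 * Ds : ℤ) : ℚ_[p])) ∧
      ∀ p : ℕ, p.Prime → p ∉ T → (p : ℤ) ∣ D0 → ∃ j, jacobiSym (H j) p = 1 := by
  classical
  have hH0 : ∀ j, H j ≠ 0 := fun j => hH.ne_zero j
  have hDs0 : Ds ≠ 0 := hDs.ne_zero
  set W0 : ℕ := 8 * (∏ p ∈ T, p) * ∏ j, (4 * (H j).natAbs) with hW0
  have hprod0 : ∏ p ∈ T, p ≠ 0 := prod_ne_zero_iff.2 fun p hp => (hT p hp).ne_zero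
  have hW00 : W0 ≠ 0 := by
    rw [hW0]
    refine mul_ne_zero (mul_ne_zero (by norm_num) hprod0) (prod_ne_zero_iff.2 fun j _ => ?_)
    exact mul_ne_zero (by norm_num) (Int.natAbs_ne_zero.2 (hH0 j))
  have hWH : ∀ j, 4 * (H j).natAbs ∣ W0 := fun j =>
    Dvd.dvd.mul_left (dvd_prod_of_mem (fun j => 4 * (H j).natAbs) (mem_univ j)) _
  have hW8 : 8 * ∏ p ∈ T, p ∣ W0 := dvd_mul_right _ _
  have h2W : 2 ∣ W0 := (Dvd.dvd.mul_right (by norm_num : 2 ∣ 8) _).trans hW8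
  have hWT : ∀ p : ℕ, p.Prime → p ∣ W0 → p ∈ T := by
    intro p hp hd
    have hp2 : p ∣ 2 → p ∈ T := fun h => by
      rw [(Nat.prime_dvd_prime_iff_eq hp Nat.prime_two).1 h]; exact h2
    rw [hW0] at hd
    rcases hp.dvd_mul.1 hd with h | h
    · rcases hp.dvd_mul.1 h with h | h
      · have h8 : (8 : ℕ) = 2 ^ 3 := by norm_num
        rw [h8] at h
        exact hp2 (hp.dvd_of_dvd_pow h)
      · obtain ⟨r, hr, hpr⟩ := (Prime.dvd_finsetProd_iff hp.prime _).1 h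
        rw [(Nat.prime_dvd_prime_iff_eq hp (hT r hr)).1 hpr]
        exact hr
    · obtain ⟨j, -, hj⟩ := (Prime.dvd_finsetProd_iff hp.prime _).1 h
      rcases hp.dvd_mul.1 hj with h | h
      · have h4 : (4 : ℕ) = 2 ^ 2 := by norm_num
        rw [h4] at h
        exact hp2 (hp.dvd_of_dvd_pow h)
      · exact hHT j p hp (Int.natCast_dvd.2 h)
  have hcopT : ∀ n : ℕ, (∀ p : ℕ, p.Prime → p ∣ n → p ∉ T) → n.Coprime W0 := by
    intro n hn
    by_contra hcon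
    obtain ⟨p, hp, hpd⟩ := Nat.exists_prime_and_dvd hcon
    exact hn p hp (hpd.trans (Nat.gcd_dvd_left _ _)) (hWT p hp (hpd.trans (Nat.gcd_dvd_right _ _)))
  -- the part of `Ds` outside of `T`
  set D' : ℕ := ∏ p ∈ Ds.natAbs.primeFactors \ T, p with hD'
  have hnat : Squarefree Ds.natAbs := Int.squarefree_natAbs.2 hDs
  have hD'd : D' ∣ Ds.natAbs := by
    conv_rhs => rw [← Nat.prod_primeFactors_of_squarefree hnat]
    exact prod_dvd_prod_of_subset _ _ _ sdiff_subset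
  have hD'p : ∀ p : ℕ, p.Prime → p ∣ D' → p ∉ T := by
    intro p hp hd
    obtain ⟨r, hr, hpr⟩ := (Prime.dvd_finsetProd_iff hp.prime _).1 hd
    rw [mem_sdiff] at hr
    rw [(Nat.prime_dvd_prime_iff_eq hp (Nat.prime_of_mem_primeFactors hr.1)).1 hpr]
    exact hr.2
  have hD'0 : 0 < D' := Nat.pos_of_ne_zero fun h0 => by
    rw [h0, zero_dvd_iff, Int.natAbs_eq_zero] at hD'd
    exact hDs0 hD'd
  have hD'W : D'.Coprime W0 := hcopT D' hD'p
  obtain ⟨D1, hD1⟩ : (D' : ℤ) ∣ Ds := Int.natCast_dvd.2 hD'd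
  have hD1s : Squarefree D1 := hDs.squarefree_of_dvd ⟨D', by rw [hD1]; ring⟩
  have hD1T : ∀ p : ℕ, p.Prime → (p : ℤ) ∣ D1 → p ∈ T := by
    intro p hp hd
    by_contra hpT
    have h3 : (p : ℤ) ∣ Ds := by rw [hD1]; exact hd.mul_left _
    have h4 : p ∣ D' := by
      apply dvd_prod_of_mem (fun p => p)
      rw [mem_sdiff, Nat.mem_primeFactors]
      exact ⟨⟨hp, Int.natCast_dvd.1 h3, Int.natAbs_ne_zero.2 hDs0⟩, hpT⟩
    have h5 : (p : ℤ) * p ∣ Ds := by
      rw [hD1]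
      exact mul_dvd_mul (Int.natCast_dvd_natCast.2 h4) hd
    exact (Nat.prime_iff_prime_int.mp hp).not_isUnit (hDs _ h5)
  have hodd : ∀ n : ℕ, n.Coprime W0 → Odd n := by
    intro n hn
    rw [← Nat.not_even_iff_odd, even_iff_two_dvd]
    intro h
    have := Nat.dvd_gcd h h2W
    rw [hn.gcd_eq_one] at this
    omega
  have hgcd : ∀ (n : ℕ), n.Coprime W0 → ∀ j, (H j).gcd n = 1 := by
    intro n hn j
    have h3 : n.Coprime (H j).natAbs := by
      apply hn.coprime_dvd_right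
      exact (dvd_mul_left _ _).trans (hWH j)
    rw [Int.gcd_comm]
    exact h3
  -- the bound
  set B : ℕ := ∑ p ∈ T, p with hB
  have hBT : ∀ p : ℕ, B < p → p ∉ T := by
    intro p hp hpT
    have : p ≤ B := single_le_sum (f := fun p => p) (fun _ _ => Nat.zero_le _) hpT
    omega
  obtain ⟨p1, hp1, hp1B, hJ1⟩ := exists_prime_sign hH (fun j => if j = 0 then 1 else -1)
    (fun j => by by_cases h : j = 0 <;> simp [h]) B
  obtain ⟨p2, hp2, hp2B, hJ2⟩ := exists_prime_sign hH (fun j => if j = 0 then -1 else 1)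
    (fun j => by by_cases h : j = 0 <;> simp [h]) p1
  set σ : ℤ := -jacobiSym (H 1) D' with hσ
  have hσ1 : σ = 1 ∨ σ = -1 := by
    rcases jacobiSym.eq_one_or_neg_one (hgcd D' hD'W 1) with h | h <;> rw [hσ, h] <;> simp
  obtain ⟨r1, hr1, hr1B, hJr⟩ := exists_prime_sign hH (fun j => if j = 1 then σ else 1)
    (fun j => by
      by_cases h : j = 1
      · simpa [h] using hσ1
      · simp [h]) p2
  have hprW : ∀ p : ℕ, p.Prime → B < p → p.Coprime W0 := by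
    intro p hp hpB
    apply hcopT
    intro p' hp' hpp'
    rw [(Nat.prime_dvd_prime_iff_eq hp' hp).1 hpp']
    exact hBT p hpB
  have hc1 := hprW p1 hp1 hp1B
  have hc2 := hprW p2 hp2 (by omega)
  have hcr := hprW r1 hr1 (by omega)
  have : NeZero W0 := ⟨hW00⟩
  set m : ℕ := p1 * p2 * r1 with hm
  have hmW : m.Coprime W0 := (hc1.mul_left hc2).mul_left hcr
  have hmu : IsUnit ((m : ℕ) : ZMod W0) := (ZMod.isUnit_iff_coprime _ _).2 hmW
  have hDu : IsUnit ((D' : ℕ) : ZMod W0) := (ZMod.isUnit_iff_coprime _ _).2 hD'W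
  obtain ⟨mu, hmu'⟩ := hmu
  have hcu : IsUnit (((D' : ℕ) : ZMod W0) * ((mu⁻¹ : (ZMod W0)ˣ) : ZMod W0)) :=
    hDu.mul (Units.isUnit _)
  obtain ⟨q2, hq2B, hq2, hq2c⟩ := Nat.forall_exists_prime_gt_and_eq_mod hcu r1
  have hcq := hprW q2 hq2 (by omega)
  have hmq : ((m * q2 : ℕ) : ZMod W0) = (D' : ZMod W0) := by
    push_cast
    rw [hq2c, ← hmu']
    have : (mu : ZMod W0) * ((D' : ZMod W0) * ((mu⁻¹ : (ZMod W0)ˣ) : ZMod W0)) =
        (D' : ZMod W0) * ((mu : ZMod W0) * ((mu⁻¹ : (ZMod W0)ˣ) : ZMod W0)) := by ring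
    rw [this, Units.mul_inv, mul_one]
  have hmod : m * q2 ≡ D' [MOD W0] := (ZMod.natCast_eq_natCast_iff _ _ _).1 hmq
  have hJq : jacobiSym (H 1) q2 = 1 := by
    have h3 := J_congr (H 1) W0 (m * q2) D' (hWH 1) (hodd _ (hmW.mul_left hcq))
      (hodd _ hD'W) hmod
    have h4 := hJ1 1
    have h5 := hJ2 1
    have h6 := hJr 1
    simp only [one_ne_zero, if_false, if_true] at h4 h5 h6
    rw [hm, jacobiSym.mul_right' _ (mul_ne_zero (mul_ne_zero hp1.ne_zero hp2.ne_zero) hr1.ne_zero) hq2.ne_zero,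
      jacobiSym.mul_right' _ (mul_ne_zero hp1.ne_zero hp2.ne_zero) hr1.ne_zero,
      jacobiSym.mul_right' _ hp1.ne_zero hp2.ne_zero, h4, h5, h6, hσ] at h3
    rcases jacobiSym.eq_one_or_neg_one (hgcd D' hD'W 1) with h | h
    · rw [h] at h3; linarith
    · rw [h] at h3; linarith
  set E : ℕ := m * q2 with hE
  have hEs : Squarefree E := by
    rw [hE, hm]
    have c1 : p1.Coprime p2 := (Nat.coprime_primes hp1 hp2).2 (by omega)
    have c2 : (p1 * p2).Coprime r1 := Nat.Coprime.mul_left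
      ((Nat.coprime_primes hp1 hr1).2 (by omega)) ((Nat.coprime_primes hp2 hr1).2 (by omega))
    have c3 : (p1 * p2 * r1).Coprime q2 := Nat.Coprime.mul_left (Nat.Coprime.mul_left
      ((Nat.coprime_primes hp1 hq2).2 (by omega)) ((Nat.coprime_primes hp2 hq2).2 (by omega)))
      ((Nat.coprime_primes hr1 hq2).2 (by omega))
    rw [Nat.squarefree_mul_iff, Nat.squarefree_mul_iff, Nat.squarefree_mul_iff]
    exact ⟨c3, ⟨c2, ⟨c1, hp1.prime.squarefree, hp2.prime.squarefree⟩, hr1.prime.squarefree⟩,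
      hq2.prime.squarefree⟩
  have hEp : ∀ p : ℕ, p.Prime → p ∣ E → p = p1 ∨ p = p2 ∨ p = r1 ∨ p = q2 := by
    intro p hp hd
    rw [hE, hm] at hd
    rcases hp.dvd_mul.1 hd with h | h
    · rcases hp.dvd_mul.1 h with h | h
      · rcases hp.dvd_mul.1 h with h | h
        · exact Or.inl ((Nat.prime_dvd_prime_iff_eq hp hp1).1 h)
        · exact Or.inr (Or.inl ((Nat.prime_dvd_prime_iff_eq hp hp2).1 h))
      · exact Or.inr (Or.inr (Or.inl ((Nat.prime_dvd_prime_iff_eq hp hr1).1 h)))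
    · exact Or.inr (Or.inr (Or.inr ((Nat.prime_dvd_prime_iff_eq hp hq2).1 h)))
  have hET : ∀ p : ℕ, p.Prime → p ∣ E → p ∉ T := by
    intro p hp hd
    apply hBT
    rcases hEp p hp hd with h | h | h | h <;> omega
  have hE0 : 0 < E := Nat.pos_of_ne_zero hEs.ne_zero
  refine ⟨D1 * E, p1, p2, ?_, hp1, hp2, hBT p1 hp1B, hBT p2 (by omega), ?_, ?_, ?_, ?_, ?_, ?_, ?_⟩
  · rw [squarefree_mul_iff]
    refine ⟨?_, hD1s, Int.squarefree_natCast.2 hEs⟩
    apply IsCoprime.isRelPrime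
    rw [Int.isCoprime_iff_gcd_eq_one]
    by_contra hcon
    obtain ⟨p, hp, hpd⟩ := Nat.exists_prime_and_dvd hcon
    have h3 : (p : ℤ) ∣ D1 := (Int.natCast_dvd_natCast.2 hpd).trans (Int.gcd_dvd_left _ _)
    have h4 : (p : ℤ) ∣ (E : ℤ) := (Int.natCast_dvd_natCast.2 hpd).trans (Int.gcd_dvd_right _ _)
    exact hET p hp (Int.natCast_dvd_natCast.1 h4) (hD1T p hp h3)
  · apply Dvd.dvd.mul_left
    apply Int.natCast_dvd_natCast.2
    exact ⟨p2 * r1 * q2, by rw [hE, hm]; ring⟩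
  · apply Dvd.dvd.mul_left
    apply Int.natCast_dvd_natCast.2
    exact ⟨p1 * r1 * q2, by rw [hE, hm]; ring⟩
  · intro j hj
    have := hJ1 j
    simpa [hj] using this
  · have := hJ2 0
    simpa using this
  · have h3 : D1 * E * Ds = D1 ^ 2 * (E * D') := by rw [hD1]; ring
    rw [h3]
    have : D1 ≠ 0 := hD1s.ne_zero
    have h4 : (0 : ℤ) < E := by exact_mod_cast hE0
    have h5 : (0 : ℤ) < D' := by exact_mod_cast hD'0
    positivity
  · intro p hpF hpT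
    have h3 : ((8 * ∏ p ∈ T, p : ℕ) : ℤ) ∣ ((E * D' : ℕ) : ℤ) - (D' : ℤ) ^ 2 := by
      have h4 : ((W0 : ℕ) : ℤ) ∣ ((E * D' : ℕ) : ℤ) - (D' : ℤ) ^ 2 := by
        have h5 : ((D' : ℤ)) ≡ (E : ℤ) [ZMOD (W0 : ℤ)] := by
          exact_mod_cast (Int.natCast_modEq_iff.2 hmod.symm)
        have h6 := h5.dvd
        push_cast
        have h7 : (E : ℤ) * D' - (D' : ℤ) ^ 2 = ((E : ℤ) - D') * D' := by ring
        rw [h7]
        exact h6.mul_right _
      exact (Int.natCast_dvd_natCast.2 hW8).trans h4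
    have hcop : (E * D').Coprime (8 * ∏ p ∈ T, p) :=
      Nat.Coprime.coprime_dvd_right hW8 ((hcopT E hET).mul_left hD'W)
    obtain ⟨s, hs0, hs⟩ := Pool.Agent.Helper47.WA.isSq_padic T (E * D') hcop D' h3 p hpT
    refine ⟨D1 * s, mul_ne_zero (by exact_mod_cast hD1s.ne_zero) hs0, ?_⟩
    rw [mul_pow, hs, hD1]
    push_cast
    ring
  · intro p hp hpT hd
    have hpZ := Nat.prime_iff_prime_int.mp hp
    rcases hpZ.dvd_or_dvd hd with h | h
    · exact absurd (hD1T p hp h) hpT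
    · rcases hEp p hp (Int.natCast_dvd_natCast.1 h) with h | h | h | h
      · refine ⟨0, ?_⟩
        rw [h]
        have := hJ1 0
        simpa using this
      · refine ⟨1, ?_⟩
        rw [h]
        have := hJ2 1
        simpa using this
      · refine ⟨0, ?_⟩
        rw [h]
        have := hJr 0
        simpa using this
      · exact ⟨1, by rw [h]; exact hJq⟩

end Pool.Agent.Helper47.DM
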