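import Mathlib
import Pool.Agent.Helper47.DM.Sec

/-!
# Rational points of double covers of hyperelliptic curves: the places which ramify
-/

set_option autoImplicit false

namespace Pool.Agent.Helper47.DM

open Pool.Agent.W262.TW Polynomial

/-- reduction of a rational point of `y² = h(x)` with `x ≡ a mod p` -/
theorem red_sq (p : ℕ) [hp : Fact p.Prime] (h : ℤ[X]) (x y : ℚ) (hy : y ^ 2 = aeval x h) (a : ℤ)
    (hd : ¬ p ∣ x.den) (hn : (p : ℤ) ∣ x.num - a * x.den) : ∃ n : ℤ, (p : ℤ) ∣ h.eval a - n ^ 2 := by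
  have hx1 : ‖(x : ℚ_[p])‖ ≤ 1 := Padic.norm_rat_le_one hd
  obtain ⟨X0, hX0⟩ : ∃ X0 : ℤ_[p], (X0 : ℚ_[p]) = x := ⟨⟨x, hx1⟩, rfl⟩
  have hev : ((aeval X0 h : ℤ_[p]) : ℚ_[p]) = ((aeval x h : ℚ) : ℚ_[p]) := by
    have e1 : ((aeval X0 h : ℤ_[p]) : ℚ_[p]) = aeval (X0 : ℚ_[p]) h := by
      have := (Polynomial.aeval_algebraMap_apply ℚ_[p] X0 h).symm
      exact this
    have e2 : ((aeval x h : ℚ) : ℚ_[p]) = aeval (x : ℚ_[p]) h := by
      have := Polynomial.aeval_algebraMap_apply ℚ_[p] x h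
      simpa using this.symm
    rw [e1, e2, hX0]
  have hy1 : ‖(y : ℚ_[p])‖ ≤ 1 := by
    have h1 : ‖(y : ℚ_[p])‖ ^ 2 ≤ 1 := by
      rw [← norm_pow]
      have : ((y : ℚ_[p])) ^ 2 = ((aeval X0 h : ℤ_[p]) : ℚ_[p]) := by
        rw [hev, ← hy]
        push_cast
        rfl
      rw [this]
      exact PadicInt.norm_le_one _
    nlinarith [norm_nonneg (y : ℚ_[p])]
  obtain ⟨Y0, hY0⟩ : ∃ Y0 : ℤ_[p], (Y0 : ℚ_[p]) = y := ⟨⟨y, hy1⟩, rfl⟩
  have hYX : Y0 ^ 2 = aeval X0 h := by
    apply Subtype.ext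
    have e1 : ((Y0 ^ 2 : ℤ_[p]) : ℚ_[p]) = ((aeval X0 h : ℤ_[p]) : ℚ_[p]) := by
      rw [hev, ← hy]
      push_cast
      rw [hY0]
    exact e1
  have hXa : PadicInt.toZMod X0 = (a : ZMod p) := by
    have h1 : X0 * (x.den : ℤ_[p]) = (x.num : ℤ_[p]) := by
      apply Subtype.ext
      have e1 : ((X0 * (x.den : ℤ_[p]) : ℤ_[p]) : ℚ_[p]) = ((x.num : ℤ_[p]) : ℚ_[p]) := by
        push_cast
        rw [hX0]
        have h2 : (x * x.den : ℚ) = x.num := Rat.mul_den_eq_num x
        exact_mod_cast congrArg (fun q : ℚ => (q : ℚ_[p])) h2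
      exact e1
    have h2 := congrArg (PadicInt.toZMod (p := p)) h1
    rw [map_mul, map_natCast, map_intCast] at h2
    have h3 : ((x.num - a * x.den : ℤ) : ZMod p) = 0 :=
      (ZMod.intCast_zmod_eq_zero_iff_dvd _ _).mpr hn
    push_cast at h3
    have h4 : (x.den : ZMod p) ≠ 0 := by
      rw [Ne, ZMod.natCast_eq_zero_iff]
      exact hd
    apply mul_right_cancel₀ h4
    rw [h2]
    exact sub_eq_zero.1 h3
  have h3 : (PadicInt.toZMod Y0) ^ 2 = ((h.eval a : ℤ) : ZMod p) := by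
    rw [← map_pow, hYX, aeval_def, Polynomial.hom_eval₂, hXa, ← Pool.Agent.W405.S3.eval_cast,
      Polynomial.eval_map]
    congr 1
    exact RingHom.ext_int _ _
  refine ⟨(PadicInt.toZMod Y0).val, ?_⟩
  rw [← ZMod.intCast_zmod_eq_zero_iff_dvd]
  push_cast
  rw [ZMod.natCast_zmod_val, h3, sub_self]

/-- a rational point on the twist `D w² = ∏ (x - e k)`, `D` outside of the sparse set, reduces to the
same branch point modulo all prime factors of `D` -/
theorem rat_at {K : Type} [Fintype K] [DecidableEq K] (e : K → ℤ) (hev : Even (Fintype.card K))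
    (hK : 3 ≤ Fintype.card K) (D : ℤ) (hD : Squarefree D)
    (hbad : ¬ BadS (fun _ => (1 : ℤ)) (fun k => - e k) D) (h : ℤ[X]) (x y w : ℚ)
    (hy : y ^ 2 = aeval x h) (hw : D * w ^ 2 = ∏ k, (x - (e k : ℚ))) :
    ∃ k, ∀ p : ℕ, p.Prime → (p : ℤ) ∣ D → (∀ i j, i ≠ j → ¬ (p : ℤ) ∣ e i - e j) →
      ∃ n : ℤ, (p : ℤ) ∣ h.eval (e k) - n ^ 2 := by
  classical
  by_cases hw0 : w = 0
  · rw [hw0] at hw
    have h1 : ∏ k, (x - (e k : ℚ)) = 0 := by rw [← hw]; ring
    obtain ⟨k, -, hk⟩ := Finset.prod_eq_zero_iff.1 h1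
    have hxk : x = (e k : ℤ) := by linarith [sub_eq_zero.1 hk]
    refine ⟨k, fun p hp _ _ => ?_⟩
    have : Fact p.Prime := ⟨hp⟩
    refine red_sq p h x y hy (e k) ?_ ?_
    · rw [hxk, Rat.den_intCast]
      exact hp.one_lt.ne' ∘ Nat.dvd_one.1
    · rw [hxk, Rat.num_intCast, Rat.den_intCast]
      simp
  obtain ⟨c, hc⟩ := hev
  set N : K → ℤ := fun k => 1 * x.num + (- e k) * x.den with hN
  have hden : (x.den : ℚ) ≠ 0 := by exact_mod_cast x.den_ne_zero
  have hNx : ∀ k, (N k : ℚ) = (x - e k) * x.den := by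
    intro k
    rw [hN]
    push_cast
    have h2 : (x * x.den : ℚ) = x.num := Rat.mul_den_eq_num x
    rw [← h2]
    ring
  have hprodQ : (D : ℚ) * (w * x.den ^ c) ^ 2 = ((∏ k, N k : ℤ) : ℚ) := by
    push_cast
    rw [Finset.prod_congr rfl fun k _ => hNx k, Finset.prod_mul_distrib, ← hw, Finset.prod_const,
      Finset.card_univ, hc]
    ring
  -- the rational number `w * den ^ c` is an integer
  obtain ⟨v, hv⟩ : ∃ v : ℤ, (v : ℚ) = w * x.den ^ c := by
    set q : ℚ := w * x.den ^ c with hq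
    have hqn : q.den = 1 := by
      by_contra hne
      obtain ⟨r, hr, hrd⟩ := Nat.exists_prime_and_dvd hne
      have h1 : D * q.num ^ 2 = (∏ k, N k) * (q.den : ℤ) ^ 2 := by
        have h2 : (q * q.den : ℚ) = q.num := Rat.mul_den_eq_num q
        have h3 : ((D * q.num ^ 2 : ℤ) : ℚ) = (((∏ k, N k) * (q.den : ℤ) ^ 2 : ℤ) : ℚ) := by
          rw [Int.cast_mul (∏ k, N k), ← hprodQ]
          push_cast
          rw [← h2]
          ring
        exact_mod_cast h3
      have hrZ := Nat.prime_iff_prime_int.mp hr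
      have h4 : (r : ℤ) ^ 2 ∣ D * q.num ^ 2 := by
        rw [h1]
        exact Dvd.dvd.mul_left (pow_dvd_pow_of_dvd (Int.natCast_dvd_natCast.2 hrd) 2) _
      have h5 : IsCoprime ((r : ℤ) ^ 2) (q.num ^ 2) := by
        apply IsCoprime.pow
        rw [Prime.coprime_iff_not_dvd hrZ]
        intro h6
        have h7 := q.reduced
        have h8 : r ∣ Nat.gcd q.num.natAbs q.den := Nat.dvd_gcd (Int.natCast_dvd.1 h6) hrd
        rw [h7] at h8
        exact hr.one_lt.ne' (Nat.dvd_one.1 h8)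
      have h6 := h5.dvd_of_dvd_mul_right h4
      exact hrZ.not_isUnit (hD (r : ℤ) (by rw [← sq]; exact h6))
    exact ⟨q.num, (Rat.coe_int_num_of_den_eq_one hqn)⟩
  have hv0 : v ≠ 0 := by
    intro h0
    rw [h0] at hv
    have : w * (x.den : ℚ) ^ c ≠ 0 := mul_ne_zero hw0 (pow_ne_zero _ hden)
    exact this (by rw [← hv]; simp)
  have hprod : D * v ^ 2 = ∏ k, N k := by
    rw [← hv] at hprodQ
    exact_mod_cast hprodQ
  have hcop : IsCoprime x.num (x.den : ℤ) := by
    rw [Int.isCoprime_iff_gcd_eq_one]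
    exact x.reduced
  have hNC : ¬ NC (cc (fun _ : K => (1 : ℤ)) (fun k => - e k)) N := by
    intro hNC
    exact hbad ⟨x.num, x.den, v, hcop, hv0, hprod, hNC⟩
  unfold NC at hNC
  push Not at hNC
  obtain ⟨i, hi⟩ := hNC
  refine ⟨i, fun p hp hpD hpe => ?_⟩
  have hpF : Fact p.Prime := ⟨hp⟩
  have hpZ := Nat.prime_iff_prime_int.mp hp
  have hND : ∀ k, (p : ℤ) ∣ N k → ¬ (p : ℤ) ∣ (x.den : ℤ) := by
    intro k hk hd
    have h1 : (p : ℤ) ∣ x.num := by
      have : x.num = N k + e k * x.den := by rw [hN]; ring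
      rw [this]
      exact dvd_add hk (Dvd.dvd.mul_left hd _)
    have h2 := hcop.isUnit_of_dvd' h1 hd
    exact hpZ.not_isUnit h2
  have huniq : ∀ k l, k ≠ l → (p : ℤ) ∣ N k → ¬ (p : ℤ) ∣ N l := by
    intro k l hkl hk hl
    have h1 : (p : ℤ) ∣ (e k - e l) * x.den := by
      have : (e k - e l) * x.den = N l - N k := by rw [hN]; ring
      rw [this]
      exact dvd_sub hl hk
    rcases hpZ.dvd_or_dvd h1 with h1 | h1
    · exact hpe k l hkl h1
    · exact hND k hk h1
  have hN0 : ∀ k, N k ≠ 0 := by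
    intro k
    have : ∏ k, N k ≠ 0 := by
      rw [← hprod]
      exact mul_ne_zero hD.ne_zero (pow_ne_zero 2 hv0)
    exact (Finset.prod_ne_zero_iff.1 this) k (Finset.mem_univ k)
  have hpi : (p : ℤ) ∣ N i := by
    by_contra hni
    have h1 : (p : ℤ) ∣ ∏ k, N k := by
      rw [← hprod]
      exact Dvd.dvd.mul_right hpD _
    obtain ⟨j, -, hj⟩ := (Prime.dvd_finset_prod_iff hpZ _).1 h1
    have hji : j ≠ i := by rintro rfl; exact hni hj
    have hodd : Odd (padicValInt p (N j)) := by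
      have h2 := congrArg (padicValInt p) hprod
      rw [padicValInt.mul hD.ne_zero (pow_ne_zero 2 hv0), sq, padicValInt.mul hv0 hv0,
        Pool.Agent.W262.G3.val_sqf hD, if_pos hpD, ← Finset.mul_prod_erase _ _ (Finset.mem_univ j),
        padicValInt.mul (hN0 j) (Finset.prod_ne_zero_iff.2 fun k _ => hN0 k)] at h2
      have h3 : padicValInt p (∏ k ∈ Finset.univ.erase j, N k) = 0 := by
        apply padicValInt.eq_zero_of_not_dvd
        rw [Prime.dvd_finset_prod_iff hpZ]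
        rintro ⟨k, hk, hk'⟩
        exact huniq j k (Ne.symm (Finset.ne_of_mem_erase hk)) hj hk'
      rw [h3] at h2
      exact ⟨padicValInt p v, by omega⟩
    obtain ⟨l, hl1, hl2⟩ : ∃ l, l ≠ i ∧ l ≠ j := by
      have : ({i, j} : Finset K).card < Fintype.card K := by
        refine lt_of_le_of_lt (Finset.card_le_two) (by omega)
      obtain ⟨l', hl'⟩ := Finset.exists_mem_notMem_of_card_lt_card
        (s := ({i, j} : Finset K)) (t := Finset.univ) (by rwa [Finset.card_univ])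
      refine ⟨l', ?_, ?_⟩ <;> rintro rfl <;> simp at hl'
    obtain ⟨t, ht⟩ := hi j l hji hl1
    have hcc : ∀ k, cc (fun _ : K => (1 : ℤ)) (fun k => - e k) i k = e i - e k := by
      intro k
      unfold cc
      ring
    rw [hcc, hcc] at ht
    have hE : ¬ (p : ℤ) ∣ N l * ((e i - e j) * (e i - e l)) := by
      intro h2
      rcases hpZ.dvd_or_dvd h2 with h2 | h2
      · exact huniq j l (Ne.symm hl2) hj h2
      · rcases hpZ.dvd_or_dvd h2 with h2 | h2
        · exact hpe i j (Ne.symm hji) h2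
        · exact hpe i l (Ne.symm hl1) h2
    have hE0 : N l * ((e i - e j) * (e i - e l)) ≠ 0 := by
      intro h0
      rw [h0] at hE
      exact hE (dvd_zero _)
    have ht0 : t ≠ 0 := by
      rintro rfl
      rw [mul_zero, mul_assoc] at ht
      exact (mul_ne_zero (hN0 j) hE0) ht
    have h4 := congrArg (padicValInt p) ht
    rw [mul_assoc, padicValInt.mul (hN0 j) hE0, padicValInt.eq_zero_of_not_dvd hE,
      padicValInt.mul ht0 ht0] at h4
    obtain ⟨s, hs⟩ := hodd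
    omega
  refine red_sq p h x y hy (e i) ?_ ?_
  · intro h1
    exact hND i hpi (Int.natCast_dvd_natCast.2 h1)
  · have : x.num - e i * x.den = N i := by rw [hN]; ring
    rw [this]
    exact hpi

end Pool.Agent.Helper47.DM
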