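import Mathlib
import Pool.Agent.Helper47.DM.Sgn

/-!
# Squarefree numbers composed of given primes: upper bound
-/

set_option autoImplicit false

namespace Pool.Agent.Helper47.DM

open Finset
open Pool.Agent.W262.RK (PS Jr)

open Classical in
/-- the squarefree numbers up to `X` composed of primes with the property `P` -/
noncomputable def SP (P : ℕ → Prop) (X : ℕ) : Finset ℕ :=
  (Icc 1 X).filter (fun n => Squarefree n ∧ ∀ p : ℕ, p.Prime → p ∣ n → P p)

theorem mem_SP {P : ℕ → Prop} {X n : ℕ} : n ∈ SP P X ↔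
    (1 ≤ n ∧ n ≤ X) ∧ Squarefree n ∧ ∀ p : ℕ, p.Prime → p ∣ n → P p := by
  classical
  unfold SP
  rw [mem_filter, mem_Icc]

theorem log_prod_primes (n : ℕ) :
    ∑ p ∈ (Icc 1 n).filter Nat.Prime, Real.log p ≤ 2 * n := by
  have h1 : ∑ p ∈ (Icc 1 n).filter Nat.Prime, Real.log p = Real.log (primorial n) := by
    unfold primorial
    rw [Nat.cast_prod, Real.log_prod]
    · refine sum_congr ?_ fun _ _ => rfl
      ext p
      rw [mem_filter, mem_filter, mem_Icc, mem_range]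
      constructor
      · rintro ⟨h1, h2⟩; exact ⟨by omega, h2⟩
      · rintro ⟨h1, h2⟩; exact ⟨⟨h2.one_lt.le, by omega⟩, h2⟩
    · intro p hp
      have := (mem_filter.1 hp).2.ne_zero
      exact_mod_cast this
  rw [h1]
  have h2 : (primorial n : ℝ) ≤ 4 ^ n := by exact_mod_cast primorial_le_four_pow n
  have h3 : Real.log (primorial n) ≤ Real.log ((4 : ℝ) ^ n) :=
    Real.log_le_log (by exact_mod_cast primorial_pos n) h2
  rw [Real.log_pow] at h3
  have h4 : Real.log 4 ≤ 2 := by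
    have : (4 : ℝ) = 2 ^ 2 := by norm_num
    rw [this, Real.log_pow]
    have := Real.log_two_lt_d9
    push_cast
    linarith
  calc Real.log (primorial n) ≤ n * Real.log 4 := h3
    _ ≤ n * 2 := by gcongr
    _ = 2 * n := by ring

theorem sum_log_le (P : ℕ → Prop) (X : ℕ) :
    ∑ n ∈ SP P X, Real.log n ≤ 2 * X * ∑ m ∈ SP P X, (1 : ℝ) / m := by
  classical
  have h1 : ∀ n ∈ SP P X, Real.log n = ∑ p ∈ n.primeFactors, Real.log p := by
    intro n hn
    rw [mem_SP] at hn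
    have h2 : (n : ℝ) = ∏ p ∈ n.primeFactors, (p : ℝ) := by
      have := congrArg (fun t : ℕ => (t : ℝ)) (Nat.prod_primeFactors_of_squarefree hn.2.1)
      push_cast at this
      exact this.symm
    rw [h2, Real.log_prod]
    intro p hp
    exact_mod_cast (Nat.prime_of_mem_primeFactors hp).ne_zero
  rw [sum_congr rfl h1, sum_sigma']
  have h2 : ∑ x ∈ (SP P X).sigma (fun n => n.primeFactors), Real.log (x.2 : ℕ) ≤
      ∑ y ∈ (SP P X).sigma (fun m => (Icc 1 (X / m)).filter Nat.Prime), Real.log (y.2 : ℕ) := by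
    have hinj : Set.InjOn (fun x : (Σ _ : ℕ, ℕ) => (⟨x.1 / x.2, x.2⟩ : Σ _ : ℕ, ℕ))
        ((SP P X).sigma (fun n => n.primeFactors) : Finset (Σ _ : ℕ, ℕ)) := by
      rintro ⟨n, p⟩ hx ⟨n', p'⟩ hx' hxx
      rw [mem_coe, mem_sigma] at hx hx'
      simp only [Sigma.mk.injEq] at hxx
      obtain ⟨e1, e2⟩ := hxx
      have e2' : p = p' := eq_of_heq e2
      subst e2'
      have h3 : p ∣ n := Nat.dvd_of_mem_primeFactors hx.2
      have h4 : p ∣ n' := Nat.dvd_of_mem_primeFactors hx'.2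
      have h5 : n = n' := by
        rw [← Nat.div_mul_cancel h3, ← Nat.div_mul_cancel h4, e1]
      subst h5
      rfl
    have h3 : ∑ x ∈ (SP P X).sigma (fun n => n.primeFactors), Real.log (x.2 : ℕ) =
        ∑ y ∈ ((SP P X).sigma (fun n => n.primeFactors)).image
          (fun x : (Σ _ : ℕ, ℕ) => (⟨x.1 / x.2, x.2⟩ : Σ _ : ℕ, ℕ)), Real.log (y.2 : ℕ) := by
      rw [sum_image hinj]
    rw [h3]
    refine sum_le_sum_of_subset_of_nonneg ?_ fun y _ _ => Real.log_natCast_nonneg _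
    intro y hy
    rw [mem_image] at hy
    obtain ⟨⟨n, p⟩, hx, rfl⟩ := hy
    rw [mem_sigma, mem_SP] at hx
    obtain ⟨⟨⟨hn1, hnX⟩, hns, hnP⟩, hp⟩ := hx
    have hpp := Nat.prime_of_mem_primeFactors hp
    have hpn := Nat.dvd_of_mem_primeFactors hp
    have hdn : n / p ∣ n := Nat.div_dvd_of_dvd hpn
    have hpos : 0 < n / p := Nat.div_pos (Nat.le_of_dvd (Nat.pos_of_ne_zero hns.ne_zero) hpn) hpp.pos
    rw [mem_sigma, mem_SP, mem_filter, mem_Icc]
    refine ⟨⟨⟨hpos, (Nat.div_le_self _ _).trans hnX⟩, hns.squarefree_of_dvd hdn,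
      fun r hr hrd => hnP r hr (hrd.trans hdn)⟩, ⟨hpp.one_lt.le, ?_⟩, hpp⟩
    rw [Nat.le_div_iff_mul_le hpos]
    show p * (n / p) ≤ X
    rw [Nat.mul_div_cancel' hpn]
    exact hnX
  refine h2.trans ?_
  rw [sum_sigma, mul_sum]
  refine sum_le_sum fun m hm => ?_
  refine (log_prod_primes (X / m)).trans ?_
  rw [mul_assoc]
  refine mul_le_mul_of_nonneg_left ?_ (by norm_num)
  rw [mul_one_div]
  exact Nat.cast_div_le

theorem sum_inv_le (P : ℕ → Prop) [DecidablePred P] (X : ℕ) :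
    ∑ m ∈ SP P X, (1 : ℝ) / m ≤
      Real.exp (∑ p ∈ (Icc 1 X).filter (fun p => p.Prime ∧ P p), (1 : ℝ) / p) := by
  classical
  set PP := (Icc 1 X).filter (fun p => p.Prime ∧ P p) with hPP
  have h1 : ∑ m ∈ SP P X, (1 : ℝ) / m ≤ ∑ A ∈ PP.powerset, ∏ p ∈ A, (1 : ℝ) / p := by
    have h2 : ∀ m ∈ SP P X, (1 : ℝ) / m = ∏ p ∈ m.primeFactors, (1 : ℝ) / p := by
      intro m hm
      rw [mem_SP] at hm
      have h3 := Nat.prod_primeFactors_of_squarefree hm.2.1
      have h4 : (m : ℝ) = ∏ p ∈ m.primeFactors, (p : ℝ) := by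
        have := congrArg (fun t : ℕ => (t : ℝ)) h3
        push_cast at this
        exact this.symm
      rw [prod_div_distrib, prod_const_one, ← h4]
    have hinj : Set.InjOn Nat.primeFactors (SP P X : Finset ℕ) := by
      intro m hm m' hm' hmm
      rw [mem_coe, mem_SP] at hm hm'
      rw [← Nat.prod_primeFactors_of_squarefree hm.2.1,
        ← Nat.prod_primeFactors_of_squarefree hm'.2.1, hmm]
    have h5 := Finset.sum_image (f := fun A : Finset ℕ => ∏ p ∈ A, (1 : ℝ) / p)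
      (g := Nat.primeFactors) hinj
    rw [sum_congr rfl h2, ← h5]
    refine sum_le_sum_of_subset_of_nonneg ?_ fun A _ _ => prod_nonneg fun p _ => by positivity
    intro A hA
    rw [mem_image] at hA
    obtain ⟨m, hm, rfl⟩ := hA
    rw [mem_SP] at hm
    rw [mem_powerset]
    intro p hp
    have hpp := Nat.prime_of_mem_primeFactors hp
    have hpm := Nat.dvd_of_mem_primeFactors hp
    rw [hPP, mem_filter, mem_Icc]
    exact ⟨⟨hpp.one_lt.le, (Nat.le_of_dvd (by omega) hpm).trans hm.1.2⟩, hpp, hm.2.2 p hpp hpm⟩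
  refine h1.trans ?_
  rw [← prod_one_add, Real.exp_sum]
  refine prod_le_prod (fun p _ => by positivity) fun p _ => ?_
  have := Real.add_one_le_exp ((1 : ℝ) / p)
  linarith

/-- upper bound for the number of squarefree numbers composed of the primes with the property `P` -/
theorem card_SP_le (P : ℕ → Prop) [DecidablePred P] (X : ℕ) (hX : 1 ≤ X) :
    ((SP P X).card : ℝ) * Real.log X ≤
      3 * X * Real.exp (∑ p ∈ (Icc 1 X).filter (fun p => p.Prime ∧ P p), (1 : ℝ) / p) := by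
  have h1 : ((SP P X).card : ℝ) * Real.log X ≤
      ∑ n ∈ SP P X, Real.log n + X * ∑ n ∈ SP P X, (1 : ℝ) / n := by
    rw [mul_sum, ← sum_add_distrib]
    have : ((SP P X).card : ℝ) * Real.log X = ∑ n ∈ SP P X, Real.log X := by
      rw [sum_const, nsmul_eq_mul]
    rw [this]
    refine sum_le_sum fun n hn => ?_
    rw [mem_SP] at hn
    have hn0 : (0 : ℝ) < n := by exact_mod_cast hn.1.1
    have hX0 : (0 : ℝ) < X := by exact_mod_cast hX
    have h2 := Real.log_le_sub_one_of_pos (div_pos hX0 hn0)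
    rw [Real.log_div hX0.ne' hn0.ne'] at h2
    rw [mul_one_div]
    linarith
  have h2 := sum_log_le P X
  have h3 := sum_inv_le P X
  have hX0 : (0 : ℝ) ≤ X := Nat.cast_nonneg _
  calc ((SP P X).card : ℝ) * Real.log X ≤
        ∑ n ∈ SP P X, Real.log n + X * ∑ n ∈ SP P X, (1 : ℝ) / n := h1
    _ ≤ 2 * X * ∑ n ∈ SP P X, (1 : ℝ) / n + X * ∑ n ∈ SP P X, (1 : ℝ) / n := by linarith
    _ = 3 * X * ∑ n ∈ SP P X, (1 : ℝ) / n := by ring
    _ ≤ _ := mul_le_mul_of_nonneg_left h3 (by positivity)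

/-- numbers composed of primes modulo which the nonsquare `a` is a square -/
theorem card_sq_le (a : ℤ) (ha : ¬ IsSquare a) (T : Finset ℕ) : ∃ C : ℝ, ∀ X : ℕ, 3 ≤ X →
    ((SP (fun p => p ∈ T ∨ jacobiSym a p = 1) X).card : ℝ) ≤
      C * X * (Real.log X) ^ (-(1 / 5) : ℝ) := by
  classical
  obtain ⟨C0, hC0⟩ := Pool.Agent.W578.TW.UBQ.ubq 2 le_rfl
  obtain ⟨C1, hC1⟩ := Pool.Agent.Helper601.Mertens.mertens_inv
  set A : ℝ := ∑ p ∈ T, (1 : ℝ) / p with hA
  set L : ℝ := Real.log (Real.log ((a.natAbs : ℝ) + 3)) + C0 with hL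
  set E : ℝ := A + 1 / 2 + 1 / 2 * (C1 + |L|) with hE
  refine ⟨3 * Real.exp E, fun X hX => ?_⟩
  have hXr : (3 : ℝ) ≤ X := by exact_mod_cast hX
  have hlog1 : 1 ≤ Real.log (X : ℝ) := by
    rw [Real.le_log_iff_exp_le (by linarith)]
    exact (Real.exp_one_lt_d9.le.trans (by norm_num)).trans hXr
  have hlog : 0 < Real.log (X : ℝ) := by linarith
  have h1 := card_SP_le (fun p => p ∈ T ∨ jacobiSym a p = 1) X (by omega)
  have hnn : ∀ p : ℕ, (0 : ℝ) ≤ 1 / p := fun p => by positivity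
  have h2 : ∑ p ∈ (Icc 1 X).filter (fun p => p.Prime ∧ (p ∈ T ∨ jacobiSym a p = 1)), (1 : ℝ) / p ≤
      1 / 2 * Real.log (Real.log X) + E := by
    have h3 : (Icc 1 X).filter (fun p => p.Prime ∧ (p ∈ T ∨ jacobiSym a p = 1)) ⊆
        (T ∪ {2}) ∪ (PS 2 X).filter (fun p => jacobiSym a p = 1) := by
      intro p hp
      rw [mem_filter, mem_Icc] at hp
      rw [mem_union, mem_union, mem_singleton, mem_filter]
      obtain ⟨⟨m1, m2⟩, m3, m4⟩ := hp
      by_cases hpT : p ∈ T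
      · exact Or.inl (Or.inl hpT)
      by_cases hp2 : p = 2
      · exact Or.inl (Or.inr hp2)
      · refine Or.inr ⟨?_, m4.resolve_left hpT⟩
        unfold PS
        rw [mem_filter, mem_Ioc]
        have := m3.two_le
        exact ⟨⟨by omega, m2⟩, m3⟩
    have hun : ∀ S T : Finset ℕ, ∑ p ∈ S ∪ T, (1 : ℝ) / p ≤
        ∑ p ∈ S, (1 : ℝ) / p + ∑ p ∈ T, (1 : ℝ) / p := by
      intro S T
      rw [← sum_union_inter]
      have := sum_nonneg (s := S ∩ T) fun p _ => hnn p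
      linarith
    have h4 := (sum_le_sum_of_subset_of_nonneg h3 (fun p _ _ => hnn p)).trans
      ((hun _ _).trans (add_le_add_left (hun _ _) _))
    have h5 : ∑ p ∈ (PS 2 X).filter (fun p => jacobiSym a p = 1), (1 : ℝ) / p ≤
        1 / 2 * ∑ p ∈ PS 2 X, (1 : ℝ) / p + 1 / 2 * ∑ p ∈ PS 2 X, Jr a p / p := by
      rw [mul_sum, mul_sum, ← sum_add_distrib, sum_filter]
      refine sum_le_sum fun p _ => ?_
      have h6 := Jr_ge a p
      split_ifs with hp
      · have : Jr a p = 1 := by unfold Jr; rw [hp]; norm_num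
        rw [this]
        apply le_of_eq
        ring
      · have : 1 / 2 * ((1 : ℝ) / p) + 1 / 2 * (Jr a p / p) = 1 / 2 * ((1 + Jr a p) / p) := by ring
        rw [this]
        have : 0 ≤ 1 + Jr a p := by linarith
        positivity
    have h6 := hC0 a ha X
    have h7 : ∑ p ∈ PS 2 X, (1 : ℝ) / p ≤ ∑ p ∈ (Icc 1 X).filter Nat.Prime, (1 : ℝ) / p := by
      apply sum_le_sum_of_subset_of_nonneg
      · intro p hp
        unfold PS at hp
        rw [mem_filter, mem_Ioc] at hp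
        rw [mem_filter, mem_Icc]
        exact ⟨⟨by omega, hp.1.2⟩, hp.2⟩
      · exact fun p _ _ => hnn p
    have h8 := (abs_le.1 (hC1 X hX)).2
    have h9 : ∑ p ∈ ({2} : Finset ℕ), (1 : ℝ) / p = 1 / 2 := by simp
    rw [h9] at h4
    have h10 := le_abs_self L
    have h11 : ∑ p ∈ PS 2 X, Jr a p / p ≤ |L| := h6.trans h10
    rw [hE]
    linarith
  have h3 : Real.exp (∑ p ∈ (Icc 1 X).filter (fun p => p.Prime ∧ (p ∈ T ∨ jacobiSym a p = 1)),
      (1 : ℝ) / p) ≤ Real.exp E * Real.log X ^ (1 / 2 : ℝ) := by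
    rw [Real.rpow_def_of_pos hlog, ← Real.exp_add]
    apply Real.exp_le_exp.2
    linarith
  have h4 : ((SP (fun p => p ∈ T ∨ jacobiSym a p = 1) X).card : ℝ) * Real.log X ≤
      3 * X * (Real.exp E * Real.log X ^ (1 / 2 : ℝ)) :=
    h1.trans (mul_le_mul_of_nonneg_left h3 (by positivity))
  have h5 : ((SP (fun p => p ∈ T ∨ jacobiSym a p = 1) X).card : ℝ) ≤
      3 * Real.exp E * X * (Real.log X ^ (1 / 2 : ℝ) / Real.log X) := by
    rw [mul_div_assoc', le_div_iff₀ hlog]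
    calc _ ≤ 3 * X * (Real.exp E * Real.log X ^ (1 / 2 : ℝ)) := h4
      _ = _ := by ring
  refine h5.trans ?_
  have h6 : Real.log X ^ (1 / 2 : ℝ) / Real.log X ≤ Real.log X ^ (-(1 / 5) : ℝ) := by
    have : Real.log X ^ (1 / 2 : ℝ) / Real.log X = Real.log (X : ℝ) ^ (-(1 / 2) : ℝ) := by
      rw [show (-(1 / 2) : ℝ) = 1 / 2 - 1 by norm_num, Real.rpow_sub hlog, Real.rpow_one]
    rw [this]
    exact Real.rpow_le_rpow_of_exponent_le hlog1 (by norm_num)
  exact mul_le_mul_of_nonneg_left h6 (by positivity)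

end Pool.Agent.Helper47.DM
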