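import Mathlib
import Pool.Graph.R_seed8.H341R2.WeilSharp
import Pool.Agent.Helper47.DM.Sec
import Pool.Agent.Helper47.WA.Dense

/-!
# Local solubility at the good primes
-/

set_option autoImplicit false

namespace Pool.Agent.Helper47.DM

open Polynomial Finset

/-- a point over `F_p` on the curve `y² = h(x)`, `u w² = g(x)` -/
theorem weil_pt (p : ℕ) [hp : Fact p.Prime] (g h : (ZMod p)[X]) (hgh : Squarefree (g * h))
    (hg : 1 ≤ g.natDegree) (hh : 1 ≤ h.natDegree) (u : ZMod p) (hu : u ≠ 0)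
    (hlt : (2 * (g.natDegree + h.natDegree) + 2) ^ 2 ≤ p) :
    ∃ x y w : ZMod p, y ≠ 0 ∧ w ≠ 0 ∧ y ^ 2 = h.eval x ∧ u * w ^ 2 = g.eval x := by
  classical
  set n := g.natDegree + h.natDegree with hn
  have hp2 : p ≠ 2 := by
    rintro rfl
    have : 6 ^ 2 ≤ (2 * n + 2) ^ 2 := Nat.pow_le_pow_left (by omega) 2
    omega
  have hchar : ringChar (ZMod p) ≠ 2 := by rw [ZMod.ringChar_zmod_n]; exact hp2
  have hcard : (Fintype.card (ZMod p) : ℝ) = p := by rw [ZMod.card]
  have hns : ∀ f : (ZMod p)[X], Squarefree f → 1 ≤ f.natDegree →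
      |∑ x : ZMod p, (quadraticChar (ZMod p) (f.eval x) : ℝ)| ≤
        (f.natDegree - 1) * Real.sqrt p := by
    intro f hf hd
    rw [← hcard]
    refine Pool.Agent.H341R2.Sharp.weil_sharp hchar f hd ?_
    intro c k hk
    have hku : IsUnit k := hf k ⟨C c, by rw [hk]; ring⟩
    have h1 : f.natDegree = 0 := by
      rw [hk]
      obtain ⟨r, hr, hrk⟩ := Polynomial.isUnit_iff.1 hku
      rw [← hrk, ← C_pow, ← C_mul, natDegree_C]
    omega
  have hg0 : g ≠ 0 := by rintro rfl; simp at hg
  have hh0 : h ≠ 0 := by rintro rfl; simp at hh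
  have hsg : Squarefree (C u * g) := by
    have h1 : Squarefree g := hgh.squarefree_of_dvd (dvd_mul_right _ _)
    refine h1.squarefree_of_dvd ?_
    exact ⟨C u⁻¹, by rw [mul_comm (C u * g), ← mul_assoc, ← C_mul, inv_mul_cancel₀ hu, C_1, one_mul]⟩
  have hsgh : Squarefree (C u * (g * h)) := by
    refine hgh.squarefree_of_dvd ?_
    exact ⟨C u⁻¹, by
      rw [mul_comm (C u * (g * h)), ← mul_assoc, ← C_mul, inv_mul_cancel₀ hu, C_1, one_mul]⟩
  have hsh : Squarefree h := hgh.squarefree_of_dvd (dvd_mul_left _ _)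
  have hdg : (C u * g).natDegree = g.natDegree := natDegree_C_mul hu
  have hdgh : (C u * (g * h)).natDegree = n := by
    rw [natDegree_C_mul hu, natDegree_mul hg0 hh0]
  have b1 := hns h hsh hh
  have b2 := hns (C u * g) hsg (by rw [hdg]; exact hg)
  have b3 := hns (C u * (g * h)) hsgh (by rw [hdgh]; omega)
  rw [hdg] at b2
  rw [hdgh] at b3
  set a : ZMod p → ℝ := fun x => (quadraticChar (ZMod p) (h.eval x) : ℝ) with ha
  set b : ZMod p → ℝ := fun x => (quadraticChar (ZMod p) ((C u * g).eval x) : ℝ) with hb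
  have hab : ∀ x, (quadraticChar (ZMod p) ((C u * (g * h)).eval x) : ℝ) = b x * a x := by
    intro x
    rw [ha, hb]
    simp only [eval_mul, eval_C, map_mul]
    push_cast
    ring
  by_contra hno
  push Not at hno
  have hle : ∀ c : ZMod p, (quadraticChar (ZMod p) c : ℝ) ≤ 1 := by
    intro c
    by_cases hc : c = 0
    · rw [hc, quadraticChar_zero]; norm_num
    · rcases quadraticChar_dichotomy hc with h | h <;> rw [h] <;> norm_num
  have hge : ∀ c : ZMod p, -1 ≤ (quadraticChar (ZMod p) c : ℝ) := by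
    intro c
    by_cases hc : c = 0
    · rw [hc, quadraticChar_zero]; norm_num
    · rcases quadraticChar_dichotomy hc with h | h <;> rw [h] <;> norm_num
  set Z : Finset (ZMod p) := g.roots.toFinset ∪ h.roots.toFinset with hZ
  have hZc : Z.card ≤ n := by
    refine (card_union_le _ _).trans ?_
    exact Nat.add_le_add ((Multiset.toFinset_card_le _).trans (card_roots' g))
      ((Multiset.toFinset_card_le _).trans (card_roots' h))
  have hterm : ∀ x : ZMod p, (1 + b x) * (1 + a x) ≤ if x ∈ Z then 2 else 0 := by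
    intro x
    split_ifs with hx
    · rw [hZ, mem_union, Multiset.mem_toFinset, Multiset.mem_toFinset, mem_roots hg0,
        mem_roots hh0] at hx
      have ha1 := hle (h.eval x)
      have ha2 := hge (h.eval x)
      have hb1 := hle ((C u * g).eval x)
      have hb2 := hge ((C u * g).eval x)
      rcases hx with hx | hx
      · have : b x = 0 := by
          rw [hb]
          simp only [eval_mul, eval_C]
          rw [hx, mul_zero, quadraticChar_zero]
          norm_num
        rw [this]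
        change (1 + 0) * (1 + (quadraticChar (ZMod p) (h.eval x) : ℝ)) ≤ 2
        linarith
      · have : a x = 0 := by
          rw [ha]
          simp only
          rw [hx, quadraticChar_zero]
          norm_num
        rw [this]
        change (1 + (quadraticChar (ZMod p) ((C u * g).eval x) : ℝ)) * (1 + 0) ≤ 2
        linarith
    · rw [hZ, mem_union, Multiset.mem_toFinset, Multiset.mem_toFinset, mem_roots hg0,
        mem_roots hh0, not_or] at hx
      have hx1 : g.eval x ≠ 0 := hx.1
      have hx2 : h.eval x ≠ 0 := hx.2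
      have hx3 : (C u * g).eval x ≠ 0 := by
        rw [eval_mul, eval_C]; exact mul_ne_zero hu hx1
      rcases quadraticChar_dichotomy hx2 with h1 | h1
      · rcases quadraticChar_dichotomy hx3 with h2 | h2
        · exfalso
          obtain ⟨y, hy⟩ := (quadraticChar_one_iff_isSquare hx2).1 h1
          obtain ⟨v, hv⟩ := (quadraticChar_one_iff_isSquare hx3).1 h2
          have hy0 : y ≠ 0 := by
            rintro rfl
            exact hx2 (by rw [hy, mul_zero])
          have hv0 : v ≠ 0 := by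
            rintro rfl
            exact hx3 (by rw [hv, mul_zero])
          refine hno x y (v / u) hy0 (div_ne_zero hv0 hu) (by rw [hy, sq]) ?_
          rw [eval_mul, eval_C] at hv
          rw [div_pow, sq v, ← hv]
          field_simp
        · have : b x = -1 := by
            rw [hb]
            simp only
            rw [h2]
            norm_num
          rw [this]
          norm_num
      · have : a x = -1 := by
          rw [ha]
          simp only
          rw [h1]
          norm_num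
        rw [this]
        norm_num
  have hsum := sum_le_sum (s := univ) fun x _ => hterm x
  have e1 : ∑ x : ZMod p, (1 + b x) * (1 + a x) =
      p + ∑ x : ZMod p, a x + ∑ x : ZMod p, b x +
        ∑ x : ZMod p, (quadraticChar (ZMod p) ((C u * (g * h)).eval x) : ℝ) := by
    have h1 : ∀ x : ZMod p, (1 + b x) * (1 + a x) = 1 + a x + b x +
        (quadraticChar (ZMod p) ((C u * (g * h)).eval x) : ℝ) := by
      intro x
      rw [hab]
      ring
    rw [sum_congr rfl fun x _ => h1 x, sum_add_distrib, sum_add_distrib, sum_add_distrib,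
      sum_const, card_univ, ZMod.card, nsmul_eq_mul, mul_one]
  have e2 : ∑ x : ZMod p, (if x ∈ Z then (2 : ℝ) else 0) = 2 * Z.card := by
    rw [← sum_filter, sum_const, nsmul_eq_mul, mul_comm]
    congr 2
    rw [filter_mem_eq_inter, univ_inter]
  rw [e1, e2] at hsum
  have hZr : (Z.card : ℝ) ≤ n := by exact_mod_cast hZc
  have hnr : (n : ℝ) = g.natDegree + h.natDegree := by rw [hn]; push_cast; ring
  have hs : (2 * (n : ℝ) + 2) ≤ Real.sqrt p := by
    apply Real.le_sqrt_of_sq_le
    exact_mod_cast hlt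
  have hsq : Real.sqrt p * Real.sqrt p = p := Real.mul_self_sqrt (Nat.cast_nonneg _)
  have b1' := (abs_le.1 b1).1
  have b2' := (abs_le.1 b2).1
  have b3' := (abs_le.1 b3).1
  have hn1 : (2 : ℝ) ≤ n := by rw [hnr]; exact_mod_cast Nat.add_le_add hg hh
  have e3 : ∑ x : ZMod p, a x = ∑ x : ZMod p, (quadraticChar (ZMod p) (h.eval x) : ℝ) := rfl
  have e4 : ∑ x : ZMod p, b x = ∑ x : ZMod p, (quadraticChar (ZMod p) ((C u * g).eval x) : ℝ) := rfl
  rw [e3, e4] at hsum
  have hge0 : 0 ≤ Real.sqrt p := Real.sqrt_nonneg _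
  have h8 : (2 * (n : ℝ) + 2) * Real.sqrt p ≤ p := by
    nlinarith
  nlinarith

/-- the good primes which do not divide `D` -/
theorem loc_good (p : ℕ) [hp : Fact p.Prime] (g h : ℤ[X]) (hg : 1 ≤ g.natDegree)
    (hh : 1 ≤ h.natDegree) (hlg : ¬ (p : ℤ) ∣ g.leadingCoeff) (hlh : ¬ (p : ℤ) ∣ h.leadingCoeff)
    (hsep : ((g * h).map (Int.castRingHom (ZMod p))).Separable) (D : ℤ) (hD : ¬ (p : ℤ) ∣ D)
    (hlt : (2 * (g.natDegree + h.natDegree) + 2) ^ 2 ≤ p) :
    ∃ x y w : ℚ_[p], y ≠ 0 ∧ y ^ 2 = aeval x h ∧ (D : ℚ_[p]) * w ^ 2 = aeval x g := by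
  classical
  have hp2 : p ≠ 2 := by
    rintro rfl
    have : 6 ^ 2 ≤ (2 * (g.natDegree + h.natDegree) + 2) ^ 2 := Nat.pow_le_pow_left (by omega) 2
    omega
  have hdeg : ∀ f : ℤ[X], ¬ (p : ℤ) ∣ f.leadingCoeff →
      (f.map (Int.castRingHom (ZMod p))).natDegree = f.natDegree := by
    intro f hf
    apply natDegree_map_of_leadingCoeff_ne_zero
    intro h0
    exact hf ((ZMod.intCast_zmod_eq_zero_iff_dvd _ _).1 h0)
  have hDp : ((D : ℤ) : ZMod p) ≠ 0 := by
    intro h0
    exact hD ((ZMod.intCast_zmod_eq_zero_iff_dvd _ _).1 h0)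
  rw [Polynomial.map_mul] at hsep
  obtain ⟨x, y, w, hy0, hw0, hy, hw⟩ := weil_pt p (g.map (Int.castRingHom (ZMod p)))
    (h.map (Int.castRingHom (ZMod p))) hsep.squarefree (by rw [hdeg g hlg]; exact hg)
    (by rw [hdeg h hlh]; exact hh) (D : ZMod p) hDp (by rw [hdeg g hlg, hdeg h hlh]; exact hlt)
  obtain ⟨a, rfl⟩ := ZMod.intCast_surjective x
  obtain ⟨b, rfl⟩ := ZMod.intCast_surjective y
  obtain ⟨c, rfl⟩ := ZMod.intCast_surjective w
  rw [Pool.Agent.W405.S3.eval_cast] at hy hw
  have hh1 : ¬ (p : ℤ) ∣ h.eval a := by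
    intro h0
    rw [← ZMod.intCast_zmod_eq_zero_iff_dvd, ← hy] at h0
    exact hy0 (pow_eq_zero_iff two_ne_zero |>.1 h0)
  have hg1 : ¬ (p : ℤ) ∣ D * g.eval a := by
    intro h0
    rw [← ZMod.intCast_zmod_eq_zero_iff_dvd] at h0
    push_cast at h0
    rw [← hw] at h0
    exact (mul_ne_zero hDp (mul_ne_zero hDp (pow_ne_zero 2 hw0))) h0
  obtain ⟨s, hs0, hs⟩ := Q52.EL.sq_odd p hp2 (h.eval a) b hh1 (by
    rw [← ZMod.intCast_zmod_eq_zero_iff_dvd]
    push_cast
    rw [hy, sub_self])
  obtain ⟨t, ht0, ht⟩ := Q52.EL.sq_odd p hp2 (D * g.eval a) (D * c) hg1 (by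
    rw [← ZMod.intCast_zmod_eq_zero_iff_dvd]
    push_cast
    rw [← hw]
    ring)
  have hDQ : (D : ℚ_[p]) ≠ 0 := by
    have : D ≠ 0 := by rintro rfl; exact hD (dvd_zero _)
    exact_mod_cast this
  have hev : ∀ f : ℤ[X], aeval ((a : ℤ) : ℚ_[p]) f = ((f.eval a : ℤ) : ℚ_[p]) := by
    intro f
    have := Polynomial.aeval_algebraMap_apply ℚ_[p] a f
    simpa using this
  refine ⟨(a : ℤ), s, t / D, hs0, ?_, ?_⟩
  · rw [hev, hs]
  · rw [hev, div_pow, ht]
    push_cast
    field_simp

end Pool.Agent.Helper47.DM
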