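import Mathlib
import Pool.Agent.Helper47.DM.Rat
import Pool.Agent.Helper47.DM.Cnt
import Pool.Agent.Helper47.DM.Wei
import Pool.Agent.Helper47.DM.Dz
import Pool.Agent.Helper47.DM.Up

/-!
# Double covers of hyperelliptic curves without sections
-/

set_option autoImplicit false

namespace Pool.Agent.Helper47.DM

open Polynomial Finset
open Pool.Agent.W620.SC (GSection)
open Pool.Agent.W262.TW (BadS cc)
open Pool.Agent.W623.SecG (Bad2 At CR)

universe v w

/-- separability modulo large primes -/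
theorem sep_mod (e : Fin 6 → ℤ) (h U V : ℤ[X]) (R : ℤ) (hUV : U * h + V * derivative h = C R)
    (p : ℕ) [hp : Fact p.Prime] (hpR : ¬ (p : ℤ) ∣ R) (hpe : ∀ i k, i ≠ k → ¬ (p : ℤ) ∣ e i - e k)
    (hpH : ∀ k, ¬ (p : ℤ) ∣ h.eval (e k)) :
    ((gp e * h).map (Int.castRingHom (ZMod p))).Separable := by
  have hR0 : ((R : ℤ) : ZMod p) ≠ 0 := fun h0 => hpR ((ZMod.intCast_zmod_eq_zero_iff_dvd _ _).1 h0)
  have hsh : (h.map (Int.castRingHom (ZMod p))).Separable := by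
    have h1 := congrArg (Polynomial.map (Int.castRingHom (ZMod p))) hUV
    rw [Polynomial.map_add, Polynomial.map_mul, Polynomial.map_mul, map_C, ← derivative_map] at h1
    refine ⟨C ((R : ℤ) : ZMod p)⁻¹ * U.map (Int.castRingHom (ZMod p)),
      C ((R : ℤ) : ZMod p)⁻¹ * V.map (Int.castRingHom (ZMod p)), ?_⟩
    rw [mul_assoc, mul_assoc, ← mul_add, h1, ← C_mul]
    have : (Int.castRingHom (ZMod p)) R = (R : ZMod p) := rfl
    rw [this, inv_mul_cancel₀ hR0, C_1]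
  have hgm : (gp e).map (Int.castRingHom (ZMod p)) = ∏ k, (X - C ((e k : ℤ) : ZMod p)) := by
    rw [gp, Polynomial.map_prod]
    refine prod_congr rfl fun k _ => ?_
    rw [Polynomial.map_sub, map_X, map_C]
    rfl
  have hsg : ((gp e).map (Int.castRingHom (ZMod p))).Separable := by
    rw [hgm, separable_prod_X_sub_C_iff]
    intro i k hik
    by_contra hne
    apply hpe i k hne
    rw [← ZMod.intCast_zmod_eq_zero_iff_dvd]
    push_cast
    exact sub_eq_zero.2 hik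
  rw [Polynomial.map_mul]
  refine hsg.mul hsh ?_
  rw [hgm]
  refine IsCoprime.prod_left fun k _ => ?_
  rw [(irreducible_X_sub_C ((e k : ℤ) : ZMod p)).coprime_iff_not_dvd, dvd_iff_isRoot, IsRoot,
    Pool.Agent.W405.S3.eval_cast]
  intro h0
  exact hpH k ((ZMod.intCast_zmod_eq_zero_iff_dvd _ _).1 h0)

/-- the sparse set -/
def QQ (e : Fin 6 → ℤ) (d : ℤ) : Prop :=
  Bad2.{v, w} e d ∨ BadS (fun _ => (1 : ℤ)) (fun k => - e k) d

theorem QQ_bound (e : Fin 6 → ℤ) (he : Function.Injective e) (hCR : CR e) :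
    ∃ C : ℝ, ∀ X : ℕ, 3 ≤ X → ({d : ℤ | d.natAbs ≤ X ∧ Squarefree d ∧ QQ.{v, w} e d}.ncard : ℝ) ≤
      C * X * (Real.log X) ^ (-(1 / 5) : ℝ) := by
  obtain ⟨C1, h1⟩ := Pool.Agent.W262.G3.fin2.{v, w} Pool.Agent.W623.SecG.secloc2.{0, v, w}
    Pool.Agent.W623.SecE.secglob.{0, v, w} (Fin 6) e he (by decide) (by decide) hCR
  have hcc : ∀ i k, cc (fun _ : Fin 6 => (1 : ℤ)) (fun k => - e k) i k = e i - e k := by
    intro i k
    unfold cc
    ring
  obtain ⟨C2, h2⟩ := Pool.Agent.W262.TW.fins_all (Fin 6) (fun _ => (1 : ℤ)) (fun k => - e k)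
    (by decide) (fun i k hik => by rw [hcc]; exact sub_ne_zero.2 fun h => hik (he h))
    (fun i k hik => by
      obtain ⟨l, l', a1, a2, a3, a4, a5⟩ := hCR i k hik
      refine ⟨l, l', a1, a2, a3, a4, ?_⟩
      rw [hcc, hcc, hcc, hcc]
      exact a5)
  refine ⟨C1 + C2, fun X hX => ?_⟩
  have hfin : ∀ P : ℤ → Prop, {d : ℤ | d.natAbs ≤ X ∧ Squarefree d ∧ P d}.Finite := by
    intro P
    refine (Finset.finite_toSet (Finset.Icc (-(X : ℤ)) X)).subset ?_
    rintro d ⟨hd1, -⟩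
    rw [Finset.mem_coe, Finset.mem_Icc]
    omega
  have hsub : {d : ℤ | d.natAbs ≤ X ∧ Squarefree d ∧ QQ.{v, w} e d} ⊆
      {d : ℤ | d.natAbs ≤ X ∧ Squarefree d ∧ Bad2.{v, w} e d} ∪
      {d : ℤ | d.natAbs ≤ X ∧ Squarefree d ∧ BadS (fun _ => (1 : ℤ)) (fun k => - e k) d} := by
    rintro d ⟨e1, e2, e3 | e3⟩
    · exact Or.inl ⟨e1, e2, e3⟩
    · exact Or.inr ⟨e1, e2, e3⟩
  have h3 := (Set.ncard_le_ncard hsub ((hfin _).union (hfin _))).trans (Set.ncard_union_le _ _)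
  have h4 : ({d : ℤ | d.natAbs ≤ X ∧ Squarefree d ∧ QQ.{v, w} e d}.ncard : ℝ) ≤
      ({d : ℤ | d.natAbs ≤ X ∧ Squarefree d ∧ Bad2.{v, w} e d}.ncard : ℝ) +
      ({d : ℤ | d.natAbs ≤ X ∧ Squarefree d ∧
        BadS (fun _ => (1 : ℤ)) (fun k => - e k) d}.ncard : ℝ) := by
    exact_mod_cast h3
  have h5 := h1 X (by omega)
  have h6 := h2 X hX
  have e3 : (C1 + C2) * X * Real.log X ^ (-(1 / 5) : ℝ) = C1 * X * Real.log X ^ (-(1 / 5) : ℝ) +
      C2 * X * Real.log X ^ (-(1 / 5) : ℝ) := by ring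
  rw [e3]
  linarith

/-- points near a given point of `y² = h(x)` -/
theorem near {K : Type} [NontriviallyNormedField K] [CompleteSpace K] [CharZero K] (h : ℤ[X])
    (a b : K) (hb : b ≠ 0) (hab : b ^ 2 = aeval a h) (ε : ℝ) (hε : 0 < ε) :
    ∃ δ : ℝ, 0 < δ ∧ ∀ x : K, ‖x - a‖ < δ → ‖x - a‖ < ε ∧ ∃ u : K, ‖u - b‖ < ε ∧ u ^ 2 = aeval x h := by
  have h1 : HasStrictDerivAt (fun x : K => x ^ 2) (2 * b) b := by
    have := hasStrictDerivAt_pow 2 b
    simpa using this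
  have h2 : (2 * b : K) ≠ 0 := mul_ne_zero two_ne_zero hb
  have h3 := h1.map_nhds_eq h2
  have h4 : {z : K | ∃ u : K, ‖u - b‖ < ε ∧ u ^ 2 = z} ∈ nhds (b ^ 2) := by
    rw [← h3, Filter.mem_map]
    filter_upwards [Metric.ball_mem_nhds b hε] with x hx
    rw [Metric.mem_ball, dist_eq_norm] at hx
    exact ⟨x, hx, rfl⟩
  have hc : Continuous fun x : K => aeval x h := by
    simp_rw [aeval_def]
    have : (fun x : K => eval₂ (algebraMap ℤ K) x h) =
        fun x : K => (h.map (algebraMap ℤ K)).eval x := by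
      funext x
      rw [eval_map]
    rw [this]
    exact (h.map (algebraMap ℤ K)).continuous
  have h5 := hc.tendsto a
  rw [← hab] at h5
  have h6 := h5 h4
  rw [Filter.mem_map, Metric.mem_nhds_iff] at h6
  obtain ⟨δ, hδ, h7⟩ := h6
  refine ⟨min δ ε, lt_min hδ hε, fun x hx => ⟨hx.trans_le (min_le_right _ _), ?_⟩⟩
  have h8 : x ∈ Metric.ball a δ := by
    rw [Metric.mem_ball, dist_eq_norm]
    exact hx.trans_le (min_le_left _ _)
  exact h7 h8

theorem J_of_sq (p : ℕ) (hp : p.Prime) (a n : ℤ) (ha : ¬ (p : ℤ) ∣ a) (h : (p : ℤ) ∣ a - n ^ 2) :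
    jacobiSym a p = 1 := by
  have h1 := Pool.Agent.W405.S3.sign_eq hp a 1 n ha
    (fun h0 => (Nat.prime_iff_prime_int.mp hp).not_isUnit (isUnit_of_dvd_one h0))
    (by rwa [mul_one])
  rw [h1, jacobiSym.one_left]

theorem aeval_rat (K : Type) [Field K] [CharZero K] (h : ℤ[X]) (r : ℚ) :
    aeval (r : K) h = ((aeval r h : ℚ) : K) := by
  have := Polynomial.aeval_algebraMap_apply K r h
  simpa using this

/-- the double cover `D w² = ∏ (x - e k)` of `y² = h(x)` has an affine rational point -/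
def RatPt (h : ℤ[X]) (e : Fin 6 → ℤ) (D : ℤ) : Prop :=
  ∃ x y w : ℚ, y ^ 2 = aeval x h ∧ D * w ^ 2 = aeval x (gp e)

/-- some field generated by a point of the double cover has a section -/
def SecPt (h : ℤ[X]) (e : Fin 6 → ℤ) (D : ℤ) : Prop :=
  ∃ (F : Type v) (Ω : Type w) (_ : Field F) (_ : Field Ω) (_ : Algebra ℚ F) (_ : Algebra F Ω)
    (_ : Algebra ℚ Ω) (_ : IsScalarTower ℚ F Ω) (_ : IsAlgClosed Ω) (_ : Algebra.IsAlgebraic F Ω)
    (U : Set (ValuationSubring F)) (_ : GSection ℚ F Ω U) (x y w : F),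
    (∀ O ∈ U, ∀ c : ℚ, algebraMap ℚ F c ∈ O) ∧ Transcendental ℚ x ∧ y ^ 2 = aeval x h ∧
    D * w ^ 2 = aeval x (gp e)

/-- the double cover has real and `p`-adic points near given points of `y² = h(x)` -/
def Els (h : ℤ[X]) (e : Fin 6 → ℤ) (S : Finset ℕ) (a0 b0 : ℝ)
    (a b : ∀ (p : ℕ) [Fact p.Prime], ℚ_[p]) (ε : ℝ) (D : ℤ) : Prop :=
  (∃ x y w : ℝ, (|x - a0| < ε ∧ |y - b0| < ε) ∧ y ^ 2 = aeval x h ∧ D * w ^ 2 = aeval x (gp e)) ∧
  ∀ (p : ℕ) [Fact p.Prime], ∃ x y w : ℚ_[p], (p ∈ S → ‖x - a p‖ < ε ∧ ‖y - b p‖ < ε) ∧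
    y ^ 2 = aeval x h ∧ D * w ^ 2 = aeval x (gp e)

/-- the data: six points in arithmetic progression at which `h` has independent values -/
structure Data (h U V : ℤ[X]) (R : ℤ) (e : Fin 6 → ℤ) (q : Fin 6 → ℕ) : Prop where
  even : Even h.natDegree
  pos : 0 < h.natDegree
  hR : R ≠ 0
  hUV : U * h + V * derivative h = C R
  inj : Function.Injective e
  cr : CR e
  indep : Indep (fun k => h.eval (e k)) q

/-- the primes outside of `T` are good -/
structure Good (h : ℤ[X]) (R : ℤ) (e : Fin 6 → ℤ) (T : Finset ℕ) : Prop where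
  prime : ∀ p ∈ T, p.Prime
  two : 2 ∈ T
  ndH : ∀ p : ℕ, p.Prime → p ∉ T → ∀ k, ¬ (p : ℤ) ∣ h.eval (e k)
  nde : ∀ p : ℕ, p.Prime → p ∉ T → ∀ i k, i ≠ k → ¬ (p : ℤ) ∣ e i - e k
  ndl : ∀ p : ℕ, p.Prime → p ∉ T → ¬ (p : ℤ) ∣ h.leadingCoeff
  ndR : ∀ p : ℕ, p.Prime → p ∉ T → ¬ (p : ℤ) ∣ R
  big : ∀ p : ℕ, p.Prime → p ∉ T → (2 * (6 + h.natDegree) + 2) ^ 2 ≤ p

variable {h U V : ℤ[X]} {R : ℤ} {e : Fin 6 → ℤ} {q : Fin 6 → ℕ}

theorem exists_data (h U V : ℤ[X]) (R : ℤ) (hev : Even h.natDegree) (hd : 0 < h.natDegree)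
    (hR : R ≠ 0) (hUV : U * h + V * derivative h = C R) :
    ∃ (e : Fin 6 → ℤ) (q : Fin 6 → ℕ), Data h U V R e q := by
  obtain ⟨a', M, q, hM, hqi, hq, hqd, hqn⟩ := exists_pts h U V R hR hUV hd
  exact ⟨fun k => a' + M * (k : ℤ), q, hev, hd, hR, hUV, ap_injective a' M hM, cr_ap a' M hM,
    ⟨hqi, hq, hqd, hqn⟩⟩

theorem exists_good (hD : Data h U V R e q) (S : Finset ℕ) :
    ∃ T : Finset ℕ, Good h R e T ∧ ∀ p : ℕ, p.Prime → p ∈ S → p ∈ T := by
  classical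
  set H : Fin 6 → ℤ := fun k => h.eval (e k) with hHdef
  have hH0 : ∀ k, H k ≠ 0 := fun k => hD.indep.ne_zero k
  have hlc0 : h.leadingCoeff ≠ 0 := by
    intro h0
    rw [leadingCoeff_eq_zero] at h0
    have := hD.pos
    rw [h0, natDegree_zero] at this
    exact lt_irrefl 0 this
  obtain ⟨z, hz⟩ : ∃ z : ℕ, z = ∑ p ∈ S, p + h.leadingCoeff.natAbs + R.natAbs + ∑ k, (H k).natAbs +
    ∑ i, ∑ k, (e i - e k).natAbs + (2 * (6 + h.natDegree) + 2) ^ 2 + 2 := ⟨_, rfl⟩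
  set T : Finset ℕ := (range (z + 1)).filter Nat.Prime with hT
  have hTp : ∀ p ∈ T, p.Prime := fun p hp => (mem_filter.1 hp).2
  have hTz : ∀ p : ℕ, p.Prime → p ∉ T → z < p := by
    intro p hp hpT
    by_contra hcon
    exact hpT (mem_filter.2 ⟨mem_range.2 (by omega), hp⟩)
  have h2T : 2 ∈ T := mem_filter.2 ⟨mem_range.2 (by omega), Nat.prime_two⟩
  have hST : ∀ p : ℕ, p.Prime → p ∈ S → p ∈ T := by
    intro p hp hpS
    by_contra hpT
    have h1 := hTz p hp hpT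
    have h2 : p ≤ ∑ p ∈ S, p := single_le_sum (f := fun p => p) (fun _ _ => Nat.zero_le _) hpS
    omega
  have hnd : ∀ n : ℤ, n ≠ 0 → n.natAbs ≤ z → ∀ p : ℕ, p.Prime → p ∉ T → ¬ (p : ℤ) ∣ n := by
    intro n hn hnz p hp hpT hdv
    have h1 := Nat.le_of_dvd (Int.natAbs_pos.mpr hn) (Int.natCast_dvd.mp hdv)
    have h2 := hTz p hp hpT
    omega
  have hHz : ∀ k, (H k).natAbs ≤ z := by
    intro k
    have : (H k).natAbs ≤ ∑ k, (H k).natAbs :=
      single_le_sum (f := fun k => (H k).natAbs) (fun _ _ => Nat.zero_le _) (mem_univ k)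
    omega
  have hez : ∀ i k, (e i - e k).natAbs ≤ z := by
    intro i k
    have : (e i - e k).natAbs ≤ ∑ i, ∑ k, (e i - e k).natAbs :=
      (single_le_sum (f := fun k => (e i - e k).natAbs) (fun _ _ => Nat.zero_le _)
        (mem_univ k)).trans
      (single_le_sum (f := fun i => ∑ k, (e i - e k).natAbs) (fun _ _ => Nat.zero_le _)
        (mem_univ i))
    omega
  refine ⟨T, ⟨hTp, h2T, fun p hp hpT k => hnd (H k) (hH0 k) (hHz k) p hp hpT,
    fun p hp hpT i k hik => hnd _ (sub_ne_zero.2 fun h => hik (hD.inj h)) (hez i k) p hp hpT,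
    fun p hp hpT => hnd _ hlc0 (by omega) p hp hpT, fun p hp hpT => hnd _ hD.hR (by omega) p hp hpT,
    fun p hp hpT => ?_⟩, hST⟩
  have h1 := hTz p hp hpT
  omega

/-- a rational point or a section is attached to one of the six points -/
theorem attached (hD : Data h U V R e q) {T : Finset ℕ} (hT : Good h R e T) (D : ℤ)
    (hDs : Squarefree D) (hQ : ¬ QQ.{v, w} e D) (hP : RatPt h e D ∨ SecPt.{v, w} h e D) :
    ∃ j, ∀ p : ℕ, p.Prime → (p : ℤ) ∣ D → p ∈ T ∨ jacobiSym (h.eval (e j)) p = 1 := by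
  have hkQ1 : ¬ Bad2.{v, w} e D := fun h => hQ (Or.inl h)
  have hkQ2 : ¬ BadS (fun _ => (1 : ℤ)) (fun k => - e k) D := fun h => hQ (Or.inr h)
  have key : ∀ j, (∀ p : ℕ, p.Prime → p ∉ T → (p : ℤ) ∣ D →
      ∃ n : ℤ, (p : ℤ) ∣ h.eval (e j) - n ^ 2) →
      ∀ p : ℕ, p.Prime → (p : ℤ) ∣ D → p ∈ T ∨ jacobiSym (h.eval (e j)) p = 1 := by
    intro j hj p hp hpD
    by_cases hpT : p ∈ T
    · exact Or.inl hpT
    · obtain ⟨n, hn⟩ := hj p hp hpT hpD
      exact Or.inr (J_of_sq p hp _ n (hT.ndH p hp hpT j) hn)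
  rcases hP with ⟨x, y, w, hy, hw⟩ | ⟨F, Ω, _, _, _, _, _, _, _, _, U', G, x, y, w, hU', hx, hy, hw⟩
  · rw [aeval_gp] at hw
    obtain ⟨j, hj⟩ := rat_at e (by decide) (by decide) D hDs hkQ2 h x y w hy hw
    exact ⟨j, key j fun p hp hpT hpD => hj p hp hpD (hT.nde p hp hpT)⟩
  · rw [aeval_gp] at hw
    obtain ⟨j, hj⟩ : ∃ j, At G x e j := by
      by_contra hno
      push Not at hno
      exact hkQ1 ⟨F, Ω, inferInstance, inferInstance, inferInstance, inferInstance, inferInstance,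
        inferInstance, inferInstance, inferInstance, U', G, x, w, hU', hx, hw, hno⟩
    refine ⟨j, key j fun p hp hpT hpD => ?_⟩
    have : Fact p.Prime := ⟨hp⟩
    have h1 : p ≠ 2 := by rintro rfl; exact hpT hT.two
    exact sq_at e (by decide) (by decide) h hD.even p hp (by have := hp.two_le; omega)
      (hT.nde p hp hpT) (hT.ndl p hp hpT)
      (sep_mod e h U V R hD.hUV p (hT.ndR p hp hpT) (hT.nde p hp hpT) (hT.ndH p hp hpT)) D hDs hpD
      F Ω U' hU' G x y w hy hw hx j hj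

theorem not_sq (hD : Data h U V R e q) (j : Fin 6) : ¬ IsSquare (h.eval (e j)) := by
  obtain ⟨-, hq, hd, -⟩ := hD.indep
  have hqZ := Nat.prime_iff_prime_int.mp (hq j).1
  rintro ⟨t, ht⟩
  have h1 : (q j : ℤ) ∣ t := by
    have h2 := (hd j).1
    simp only [ht] at h2
    rcases hqZ.dvd_or_dvd h2 with h | h <;> exact h
  apply (hd j).2
  simp only [ht]
  rw [sq]
  exact mul_dvd_mul h1 h1

/-- **upper bound** for the number of twists with a rational point or a section -/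
theorem upper (hD : Data h U V R e q) : ∃ C : ℝ, ∀ X : ℕ, 3 ≤ X →
    ({D : ℤ | D.natAbs ≤ X ∧ Squarefree D ∧ (RatPt h e D ∨ SecPt.{v, w} h e D)}.ncard : ℝ) ≤
      C * X * (Real.log X) ^ (-(1 / 5) : ℝ) := by
  classical
  obtain ⟨T, hT, -⟩ := exists_good hD ∅
  obtain ⟨C1, h1⟩ := QQ_bound.{v, w} e hD.inj hD.cr
  choose C2 h2 using fun j => card_sq_le (h.eval (e j)) (not_sq hD j) T
  refine ⟨C1 + 2 * ∑ j, C2 j, fun X hX => ?_⟩
  set L : ℝ := X * (Real.log X) ^ (-(1 / 5) : ℝ) with hL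
  have hfin : ∀ P : ℤ → Prop, {d : ℤ | d.natAbs ≤ X ∧ Squarefree d ∧ P d}.Finite := by
    intro P
    refine (Finset.finite_toSet (Finset.Icc (-(X : ℤ)) X)).subset ?_
    rintro d ⟨hd1, -⟩
    rw [Finset.mem_coe, Finset.mem_Icc]
    omega
  set N : Fin 6 → Finset ℤ := fun j =>
    (SP (fun p => p ∈ T ∨ jacobiSym (h.eval (e j)) p = 1) X).image (fun n : ℕ => (n : ℤ)) ∪
    (SP (fun p => p ∈ T ∨ jacobiSym (h.eval (e j)) p = 1) X).image (fun n : ℕ => -(n : ℤ)) with hN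
  have hsub : {D : ℤ | D.natAbs ≤ X ∧ Squarefree D ∧ (RatPt h e D ∨ SecPt.{v, w} h e D)} ⊆
      {d : ℤ | d.natAbs ≤ X ∧ Squarefree d ∧ QQ.{v, w} e d} ∪
        ((univ.biUnion N : Finset ℤ) : Set ℤ) := by
    rintro D ⟨e1, e2, e3⟩
    by_cases hQ : QQ.{v, w} e D
    · exact Or.inl ⟨e1, e2, hQ⟩
    · right
      obtain ⟨j, hj⟩ := attached hD hT D e2 hQ e3
      rw [mem_coe, mem_biUnion]
      refine ⟨j, mem_univ j, ?_⟩
      have hm : D.natAbs ∈ SP (fun p => p ∈ T ∨ jacobiSym (h.eval (e j)) p = 1) X := by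
        rw [mem_SP]
        refine ⟨⟨Int.natAbs_pos.2 e2.ne_zero, e1⟩, Int.squarefree_natAbs.2 e2, fun p hp hpD => ?_⟩
        exact hj p hp (Int.natCast_dvd.2 hpD)
      rw [hN, mem_union, mem_image, mem_image]
      rcases Int.natAbs_eq D with h3 | h3
      · exact Or.inl ⟨D.natAbs, hm, h3.symm⟩
      · exact Or.inr ⟨D.natAbs, hm, h3.symm⟩
  have h3 := (Set.ncard_le_ncard hsub ((hfin _).union (Finset.finite_toSet _))).trans
    (Set.ncard_union_le _ _)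
  rw [Set.ncard_coe_finset] at h3
  have h4 : (univ.biUnion N).card ≤ ∑ j, 2 *
      (SP (fun p => p ∈ T ∨ jacobiSym (h.eval (e j)) p = 1) X).card := by
    refine card_biUnion_le.trans (sum_le_sum fun j _ => ?_)
    refine (card_union_le _ _).trans ?_
    have e1 := card_image_le (s := SP (fun p => p ∈ T ∨ jacobiSym (h.eval (e j)) p = 1) X)
      (f := fun n : ℕ => (n : ℤ))
    have e2 := card_image_le (s := SP (fun p => p ∈ T ∨ jacobiSym (h.eval (e j)) p = 1) X)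
      (f := fun n : ℕ => -(n : ℤ))
    omega
  have h5 : ((univ.biUnion N).card : ℝ) ≤ 2 * (∑ j, C2 j) * L := by
    have h6 : ((univ.biUnion N).card : ℝ) ≤ ∑ j, 2 *
      ((SP (fun p => p ∈ T ∨ jacobiSym (h.eval (e j)) p = 1) X).card : ℝ) := by
      exact_mod_cast h4
    refine h6.trans ?_
    rw [← mul_sum, mul_assoc, sum_mul]
    refine mul_le_mul_of_nonneg_left (sum_le_sum fun j _ => ?_) (by norm_num)
    have := h2 j X hX
    rw [hL, ← mul_assoc]
    exact this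
  have h7 : ({D : ℤ | D.natAbs ≤ X ∧ Squarefree D ∧ (RatPt h e D ∨ SecPt.{v, w} h e D)}.ncard : ℝ) ≤
      ({d : ℤ | d.natAbs ≤ X ∧ Squarefree d ∧ QQ.{v, w} e d}.ncard : ℝ) +
      ((univ.biUnion N).card : ℝ) := by
    exact_mod_cast h3
  have h8 := h1 X hX
  have h9 : (C1 + 2 * ∑ j, C2 j) * X * Real.log X ^ (-(1 / 5) : ℝ) =
      C1 * X * Real.log X ^ (-(1 / 5) : ℝ) + 2 * (∑ j, C2 j) * L := by
    rw [hL]
    ring
  rw [h9]
  linarith

/-- **lower bound** for the number of the everywhere locally soluble twists -/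
theorem lower (hD : Data h U V R e q) (S : Finset ℕ) (a0 b0 : ℝ) (hb0 : b0 ≠ 0)
    (hab0 : b0 ^ 2 = aeval a0 h) (a b : ∀ (p : ℕ) [Fact p.Prime], ℚ_[p])
    (hb : ∀ (p : ℕ) [Fact p.Prime], b p ≠ 0)
    (hab : ∀ (p : ℕ) [Fact p.Prime], b p ^ 2 = aeval (a p) h) (ε : ℝ) (hε : 0 < ε) :
    ∃ c : ℝ, ∃ X0 : ℕ, 0 < c ∧ ∀ X : ℕ, X0 ≤ X → c * X * (Real.log X) ^ (-(1 / 8) : ℝ) ≤
      ({D : ℤ | D.natAbs ≤ X ∧ Squarefree D ∧ Els h e S a0 b0 a b ε D}.ncard : ℝ) := by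
  classical
  obtain ⟨T, hT, hST⟩ := exists_good hD S
  set H : Fin 6 → ℤ := fun k => h.eval (e k) with hHdef
  have hH : Indep H q := hD.indep
  have hH0 : ∀ k, H k ≠ 0 := fun k => hH.ne_zero k
  have hTp := hT.prime
  have h2T := hT.two
  have hHT : ∀ j, ∀ p : ℕ, p.Prime → (p : ℤ) ∣ H j → p ∈ T := by
    intro j p hp hdv
    by_contra hpT
    exact hT.ndH p hp hpT j hdv
  -- the rational number `r`
  obtain ⟨δ0, hδ0, hn0⟩ := near h a0 b0 hb0 hab0 ε hε
  have hnp : ∀ p : ℕ, ∃ δ : ℝ, 0 < δ ∧ ∀ [Fact p.Prime], ∀ x : ℚ_[p], ‖x - a p‖ < δ →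
      ‖x - a p‖ < ε ∧ ∃ u : ℚ_[p], ‖u - b p‖ < ε ∧ u ^ 2 = aeval x h := by
    intro p
    by_cases hp : p.Prime
    · have : Fact p.Prime := ⟨hp⟩
      obtain ⟨δ, hδ, h1⟩ := near h (a p) (b p) (hb p) (hab p) ε hε
      exact ⟨δ, hδ, fun {_} => h1⟩
    · exact ⟨1, one_pos, fun {h} => absurd h.out hp⟩
  choose δp hδp hnp using hnp
  obtain ⟨δ1, hδ1, hδ1p⟩ := Pool.Agent.Helper47.WA.exists_pos_le T δp fun p _ => hδp p
  obtain ⟨a0', ha0'1, ha0'2⟩ : ∃ a0' : ℝ, a0' ∈ Set.Ioo a0 (a0 + δ0 / 2) ∧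
      a0' ∉ (univ.image (fun k => (e k : ℝ)) : Finset ℝ) :=
    (Set.Ioo_infinite (by linarith : a0 < a0 + δ0 / 2)).exists_notMem_finset _
  have hgc : Continuous fun x : ℝ => ∏ k, (x - (e k : ℝ)) := by fun_prop
  have hga : ∏ k, (a0' - (e k : ℝ)) ≠ 0 := by
    rw [prod_ne_zero_iff]
    intro k _ h0
    apply ha0'2
    rw [mem_image]
    exact ⟨k, mem_univ k, by linarith⟩
  obtain ⟨δ2, hδ2, hg2⟩ : ∃ δ2 : ℝ, 0 < δ2 ∧ ∀ x : ℝ, |x - a0'| < δ2 → ∏ k, (x - (e k : ℝ)) ≠ 0 := by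
    have h1 := hgc.continuousAt.eventually_ne (x := a0') hga
    rw [Metric.eventually_nhds_iff] at h1
    obtain ⟨δ2, hδ2, h2⟩ := h1
    exact ⟨δ2, hδ2, fun x hx => h2 (by rwa [Real.dist_eq])⟩
  obtain ⟨r, hr0, hrp⟩ := Pool.Agent.Helper47.WA.approx T hTp a0' a (min δ1 (min (δ0 / 2) δ2))
    (lt_min hδ1 (lt_min (by linarith) hδ2))
  have hr01 : |(r : ℝ) - a0| < δ0 := by
    have h1 : |(r : ℝ) - a0'| < δ0 / 2 :=
      hr0.trans_le ((min_le_right _ _).trans (min_le_left _ _))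
    rw [abs_lt] at h1 ⊢
    constructor <;> linarith [ha0'1.1, ha0'1.2]
  have hgr : ∏ k, (r - (e k : ℚ)) ≠ 0 := by
    have h1 := hg2 (r : ℝ) (hr0.trans_le ((min_le_right _ _).trans (min_le_right _ _)))
    intro h0
    apply h1
    have h2 := congrArg (fun q : ℚ => (q : ℝ)) h0
    push_cast at h2
    exact h2
  obtain ⟨hr1, u0, hu0, hu0'⟩ := hn0 (r : ℝ) (by rwa [Real.norm_eq_abs])
  have hrpp : ∀ (p : ℕ) [Fact p.Prime], p ∈ T → ‖(r : ℚ_[p]) - a p‖ < ε ∧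
      ∃ u : ℚ_[p], ‖u - b p‖ < ε ∧ u ^ 2 = aeval (r : ℚ_[p]) h := by
    intro p _ hpT
    exact hnp p (r : ℚ_[p]) ((hrp p hpT).trans_le ((min_le_left _ _).trans (hδ1p p hpT)))
  -- the square class
  obtain ⟨Ds, s, hDs, hs0, hgs⟩ := Pool.Agent.Helper47.WA.squarefree_part _ hgr
  obtain ⟨D0, p1, p2, hD0, -, -, -, -, -, -, -, -, hpos, hloc, hother⟩ :=
    exists_D0 hH T hTp h2T hHT Ds hDs
  have hD00 : D0 ≠ 0 := hD0.ne_zero
  set W : ℕ := 8 * (∏ p ∈ T, p) * (∏ j, (4 * (H j).natAbs)) * D0.natAbs with hW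
  have hW0 : W ≠ 0 := by
    rw [hW]
    refine mul_ne_zero (mul_ne_zero (mul_ne_zero (by norm_num) ?_) ?_) (Int.natAbs_ne_zero.2 hD00)
    · exact prod_ne_zero_iff.2 fun p hp => (hTp p hp).ne_zero
    · exact prod_ne_zero_iff.2 fun j _ => mul_ne_zero (by norm_num) (Int.natAbs_ne_zero.2 (hH0 j))
  have hW8 : 8 * ∏ p ∈ T, p ∣ W := ⟨(∏ j, (4 * (H j).natAbs)) * D0.natAbs, by rw [hW]; ring⟩
  have hWH : ∀ j, 4 * (H j).natAbs ∣ W := by
    intro j
    refine Dvd.dvd.mul_right (Dvd.dvd.mul_left ?_ _) _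
    exact dvd_prod_of_mem (fun j => 4 * (H j).natAbs) (mem_univ j)
  have hWD : D0 ∣ (W : ℤ) := by
    rw [← Int.natAbs_dvd]
    exact Int.natCast_dvd_natCast.2 (dvd_mul_left _ _)
  obtain ⟨c, Y0, hc, hlow⟩ := low hH W hW0 hWH
  -- the twists are locally soluble
  have hels : ∀ k : ℕ, 0 < k → k.Coprime W → k % W = 1 % W →
      (∀ p : ℕ, p.Prime → p ∣ k → ∃ j, jacobiSym (H j) p = 1) →
      Els h e S a0 b0 a b ε (D0 * k) := by
    intro k hk0 hkW hk1 hkp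
    have hk0r : (0 : ℝ) < k := by exact_mod_cast hk0
    refine ⟨?_, ?_⟩
    · -- over the real numbers
      have hprod : aeval (r : ℝ) (gp e) = (Ds : ℝ) * (s : ℝ) ^ 2 := by
        rw [aeval_rat, aeval_gp, hgs]
        push_cast
        ring
      have hposr : (0 : ℝ) < D0 * Ds := by exact_mod_cast hpos
      have hs0r : (s : ℝ) ≠ 0 := by exact_mod_cast hs0
      have hD0r : (D0 : ℝ) ≠ 0 := by exact_mod_cast hD00
      have hq0 : (0 : ℝ) ≤ (Ds : ℝ) * (s : ℝ) ^ 2 / (D0 * k) := by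
        have : (Ds : ℝ) * (s : ℝ) ^ 2 / (D0 * k) = (D0 * Ds) * s ^ 2 / (D0 ^ 2 * k) := by
          field_simp
        rw [this]
        positivity
      refine ⟨(r : ℝ), u0, Real.sqrt ((Ds : ℝ) * (s : ℝ) ^ 2 / (D0 * k)), ⟨?_, ?_⟩, hu0', ?_⟩
      · rwa [Real.norm_eq_abs] at hr1
      · rwa [Real.norm_eq_abs] at hu0
      · rw [Real.sq_sqrt hq0, hprod]
        push_cast
        field_simp
    · intro p hpF
      have hp := hpF.out
      by_cases hpT : p ∈ T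
      · obtain ⟨h1, u, hu, hu'⟩ := hrpp p hpT
        obtain ⟨s1, hs10, hs1⟩ := hloc p hpT
        obtain ⟨κ, hκ0, hκ⟩ := Pool.Agent.Helper47.WA.isSq_padic T k
          (Nat.Coprime.coprime_dvd_right hW8 hkW) 1 (by
            have h3 : ((W : ℕ) : ℤ) ∣ (k : ℤ) - 1 := by
              have h4 : (1 : ℤ) ≡ (k : ℤ) [ZMOD (W : ℤ)] := by
                exact_mod_cast (Int.natCast_modEq_iff.2 (show 1 ≡ k [MOD W] from hk1.symm))
              exact h4.dvd
            rw [one_pow]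
            exact (Int.natCast_dvd_natCast.2 hW8).trans h3) p hpT
        have hprod : aeval (r : ℚ_[p]) (gp e) = (Ds : ℚ_[p]) * (s : ℚ_[p]) ^ 2 := by
          rw [aeval_rat, aeval_gp, hgs]
          push_cast
          ring
        have hD0p : (D0 : ℚ_[p]) ≠ 0 := by exact_mod_cast hD00
        have hk0p : (k : ℚ_[p]) ≠ 0 := by exact_mod_cast hk0.ne'
        refine ⟨(r : ℚ_[p]), u, s1 * κ * s / (D0 * k), fun _ => ⟨h1, hu⟩, hu', ?_⟩
        rw [hprod, div_pow, mul_pow, mul_pow, hs1, hκ]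
        push_cast
        field_simp
      · by_cases hpD : (p : ℤ) ∣ D0 * k
        · -- a prime factor of `D`
          obtain ⟨j, hj⟩ : ∃ j, jacobiSym (H j) p = 1 := by
            rcases (Nat.prime_iff_prime_int.mp hp).dvd_or_dvd hpD with h1 | h1
            · exact hother p hp hpT h1
            · exact hkp p hp (Int.natCast_dvd_natCast.1 h1)
          have hp2' : p ≠ 2 := by rintro rfl; exact hpT h2T
          have hpH := hT.ndH p hp hpT j
          have h3 : IsSquare ((H j : ℤ) : ZMod p) := by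
            rw [← jacobiSym.legendreSym.to_jacobiSym] at hj
            refine (legendreSym.eq_one_iff p ?_).1 hj
            intro h0
            exact hpH ((ZMod.intCast_zmod_eq_zero_iff_dvd _ _).1 h0)
          obtain ⟨c, hc⟩ := h3
          obtain ⟨t, ht0, ht⟩ := Q52.EL.sq_odd p hp2' (H j) c.val hpH (by
            rw [← ZMod.intCast_zmod_eq_zero_iff_dvd]
            push_cast
            rw [ZMod.natCast_zmod_val, hc]
            ring)
          refine ⟨((e j : ℤ) : ℚ_[p]), t, 0, fun hpS => absurd (hST p hp hpS) hpT, ?_, ?_⟩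
          · rw [ht]
            have := Polynomial.aeval_algebraMap_apply ℚ_[p] (e j) h
            simpa using this.symm
          · rw [aeval_gp, prod_eq_zero (mem_univ j) (sub_self _)]
            ring
        · obtain ⟨x, y, w, -, hy, hw⟩ := loc_good p (gp e) h (by rw [gp_natDegree]; decide)
            hD.pos
            (by
              rw [(gp_monic e).leadingCoeff]
              intro h0
              exact (Nat.prime_iff_prime_int.mp hp).not_isUnit (isUnit_of_dvd_one h0))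
            (hT.ndl p hp hpT)
            (sep_mod e h U V R hD.hUV p (hT.ndR p hp hpT) (hT.nde p hp hpT) (hT.ndH p hp hpT))
            (D0 * k) hpD (by
              have h1 := hT.big p hp hpT
              rw [gp_natDegree, Fintype.card_fin]
              exact h1)
          exact ⟨x, y, w, fun hpS => absurd (hST p hp hpS) hpT, hy, hw⟩
  -- counting
  set M : ℕ := D0.natAbs with hM
  have hM1 : 1 ≤ M := Nat.one_le_iff_ne_zero.2 (Int.natAbs_ne_zero.2 hD00)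
  have hM1r : (1 : ℝ) ≤ M := by exact_mod_cast hM1
  refine ⟨c / (2 * M), M * (Y0 + 3), by positivity, fun X hX => ?_⟩
  set Y : ℕ := X / M with hY
  have hYY : Y0 + 3 ≤ Y := by
    rw [hY, Nat.le_div_iff_mul_le (by omega)]
    calc (Y0 + 3) * M = M * (Y0 + 3) := by ring
      _ ≤ X := hX
  have hMY : M * Y ≤ X := Nat.mul_div_le X M
  have hXY : (X : ℝ) ≤ 2 * M * Y := by
    have h1 : X < M * (Y + 1) := by
      rw [hY]
      exact Nat.lt_mul_div_succ X (by omega)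
    have h2 : M * (Y + 1) ≤ 2 * M * Y := by nlinarith
    have h3 : X ≤ 2 * M * Y := by omega
    exact_mod_cast h3
  have h1 := hlow Y (by omega)
  have hY3r : (3 : ℝ) ≤ Y := by
    have : 3 ≤ Y := by omega
    exact_mod_cast this
  have hlogY : 0 < Real.log (Y : ℝ) := Real.log_pos (by linarith)
  have hYX : (Y : ℝ) ≤ X := by exact_mod_cast Nat.div_le_self X M
  have hlog : Real.log (X : ℝ) ^ (-(1 / 8) : ℝ) ≤ Real.log (Y : ℝ) ^ (-(1 / 8) : ℝ) := by
    apply Real.rpow_le_rpow_of_nonpos hlogY _ (by norm_num)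
    exact Real.log_le_log (by linarith) hYX
  have h2 : c / (2 * M) * X * Real.log X ^ (-(1 / 8) : ℝ) ≤ c * Y * Real.log Y ^ (-(1 / 8) : ℝ) := by
    have h3 : 0 ≤ Real.log (X : ℝ) ^ (-(1 / 8) : ℝ) := Real.rpow_nonneg (Real.log_natCast_nonneg _) _
    have h4 : c / (2 * M) * X ≤ c * Y := by
      calc c / (2 * M) * X ≤ c / (2 * M) * (2 * M * Y) := by gcongr
        _ = c * Y := by field_simp
    calc _ ≤ c * Y * Real.log X ^ (-(1 / 8) : ℝ) := mul_le_mul_of_nonneg_right h4 h3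
      _ ≤ _ := mul_le_mul_of_nonneg_left hlog (by positivity)
  refine h2.trans (h1.trans ?_)
  refine Nat.cast_le.2 ?_
  have hfin : {D : ℤ | D.natAbs ≤ X ∧ Squarefree D ∧ Els h e S a0 b0 a b ε D}.Finite := by
    refine (Finset.finite_toSet (Finset.Icc (-(X : ℤ)) X)).subset ?_
    rintro d ⟨hd1, -⟩
    rw [Finset.mem_coe, Finset.mem_Icc]
    omega
  rw [← Set.ncard_coe_finset]
  refine Set.ncard_le_ncard_of_injOn (fun k : ℕ => D0 * (k : ℤ)) (fun k hk => ?_) ?_ hfin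
  · rw [Finset.mem_coe, mem_filter, mem_Icc] at hk
    obtain ⟨⟨m1, m2⟩, m3, m4, m5, m6⟩ := hk
    refine ⟨?_, ?_, hels k (by omega) m4 m6 m5⟩
    · rw [Int.natAbs_mul, Int.natAbs_natCast]
      exact (Nat.mul_le_mul_left _ m2).trans hMY
    · have hcop : IsCoprime D0 (k : ℤ) := by
        have h8 : IsCoprime (W : ℤ) (k : ℤ) := by
          rw [Nat.isCoprime_iff_coprime]; exact m4.symm
        exact h8.of_isCoprime_of_dvd_left hWD
      rw [squarefree_mul_iff]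
      refine ⟨hcop.isRelPrime, hD0, ?_⟩
      exact_mod_cast (Int.squarefree_natCast.mpr m3)
  · intro k _ k' _ h
    have h8 : D0 * (k : ℤ) = D0 * (k' : ℤ) := h
    exact_mod_cast mul_left_cancel₀ hD00 h8

end Pool.Agent.Helper47.DM
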