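import Mathlib
import Pool.Agent.Helper47.DM.Core

/-!
# Points on hyperelliptic curves over complete fields; integral equations
-/

set_option autoImplicit false

namespace Pool.Agent.Helper47.DM

open Polynomial Finset

/-- the homogenisation of `h` -/
noncomputable def hom (h : ℤ[X]) {K : Type} [Field K] (x z : K) : K :=
  ∑ i ∈ range (h.natDegree + 1), (h.coeff i : K) * x ^ i * z ^ (h.natDegree - i)

theorem aeval_eq_hom (h : ℤ[X]) {K : Type} [Field K] (x z : K) (hz : z ≠ 0) :
    aeval (x / z) h * z ^ h.natDegree = hom h x z := by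
  rw [aeval_eq_sum_range, hom, sum_mul]
  refine sum_congr rfl fun i hi => ?_
  rw [mem_range] at hi
  have h1 : z ^ h.natDegree = z ^ i * z ^ (h.natDegree - i) := by
    rw [← pow_add]; congr 1; omega
  rw [h1, div_pow, zsmul_eq_mul]
  field_simp

theorem hom_zero_right (h : ℤ[X]) {K : Type} [Field K] (x : K) :
    hom h x 0 = (h.leadingCoeff : K) * x ^ h.natDegree := by
  rw [hom, sum_range_succ, Nat.sub_self, pow_zero, mul_one]
  rw [sum_eq_zero, zero_add]
  · rfl
  · intro i hi
    rw [mem_range] at hi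
    rw [zero_pow (by omega), mul_zero]

section

variable {K : Type} [NontriviallyNormedField K] [CompleteSpace K] [CharZero K]

theorem strict (h : ℤ[X]) (a : K) :
    HasStrictDerivAt (fun x : K => aeval x h) (aeval a (derivative h)) a := by
  have h1 := (h.map (Int.castRingHom K)).hasStrictDerivAt a
  rw [derivative_map] at h1
  have e1 : ∀ (f : ℤ[X]) (x : K), (f.map (Int.castRingHom K)).eval x = aeval x f := by
    intro f x
    rw [eval_map, aeval_def]
    congr 1
  rw [e1] at h1
  have e2 : (fun x : K => (h.map (Int.castRingHom K)).eval x) = fun x : K => aeval x h := by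
    funext x
    exact e1 h x
  rw [← e2]
  exact h1

theorem perturb (h U V : ℤ[X]) (R : ℤ) (hR : R ≠ 0) (hUV : U * h + V * derivative h = C R)
    (a b : K) (hab : b ^ 2 = aeval a h) (ε : ℝ) (hε : 0 < ε) :
    ∃ a' b' : K, b' ≠ 0 ∧ b' ^ 2 = aeval a' h ∧ ‖a' - a‖ < ε ∧ ‖b' - b‖ < ε := by
  by_cases hb : b = 0
  · subst hb
    have h0 : aeval a h = 0 := by rw [← hab]; ring
    have hder : aeval a (derivative h) ≠ 0 := by
      intro h1
      have h2 := congrArg (aeval a) hUV
      rw [map_add, map_mul, map_mul, h0, h1, aeval_C] at h2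
      simp only [mul_zero, add_zero] at h2
      have h3 : ((R : ℤ) : K) = 0 := h2.symm
      exact hR (by exact_mod_cast h3)
    have h3 := (strict h a).map_nhds_eq hder
    have h4 : {z : K | ∃ x : K, ‖x - a‖ < ε ∧ aeval x h = z} ∈ nhds (aeval a h) := by
      rw [← h3, Filter.mem_map]
      filter_upwards [Metric.ball_mem_nhds a hε] with x hx
      rw [Metric.mem_ball, dist_eq_norm] at hx
      exact ⟨x, hx, rfl⟩
    rw [h0] at h4
    have hc : Filter.Tendsto (fun c : K => c ^ 2) (nhds 0) (nhds 0) := by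
      have : Continuous fun c : K => c ^ 2 := by fun_prop
      have := this.tendsto 0
      simpa using this
    have h5 := hc h4
    rw [Filter.mem_map, Metric.mem_nhds_iff] at h5
    obtain ⟨δ, hδ, h6⟩ := h5
    obtain ⟨c, hc1, hc2⟩ := NormedField.exists_norm_lt K (lt_min hδ hε)
    obtain ⟨x, hx, hx2⟩ := h6 (show c ∈ Metric.ball (0 : K) δ by
      rw [Metric.mem_ball, dist_zero_right]; exact hc2.trans_le (min_le_left _ _))
    refine ⟨x, c, norm_pos_iff.1 hc1, hx2.symm, hx, ?_⟩
    rw [sub_zero]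
    exact hc2.trans_le (min_le_right _ _)
  · exact ⟨a, b, hb, hab, by simpa using hε, by simpa using hε⟩

theorem affine_of_proj (h U V : ℤ[X]) (R : ℤ) (hR : R ≠ 0)
    (hUV : U * h + V * derivative h = C R) (hev : Even h.natDegree) (hd : 0 < h.natDegree)
    (x z y : K) (hxz : x ≠ 0 ∨ z ≠ 0) (hy : y ^ 2 = hom h x z) :
    ∃ a b : K, b ≠ 0 ∧ b ^ 2 = aeval a h := by
  obtain ⟨m, hm⟩ := hev
  have key : ∀ x z y : K, z ≠ 0 → y ^ 2 = hom h x z → ∃ a b : K, b ≠ 0 ∧ b ^ 2 = aeval a h := by
    intro x z y hz hy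
    have h1 := aeval_eq_hom h x z hz
    rw [← hy] at h1
    have h2 : (y / z ^ m) ^ 2 = aeval (x / z) h := by
      rw [div_pow, ← h1, hm, ← pow_mul, mul_two]
      field_simp
    obtain ⟨a', b', hb', hab', -, -⟩ := perturb h U V R hR hUV (x / z) (y / z ^ m) h2 1 one_pos
    exact ⟨a', b', hb', hab'⟩
  by_cases hz : z = 0
  · subst hz
    have hx : x ≠ 0 := hxz.resolve_right (fun h => h rfl)
    rw [hom_zero_right] at hy
    have hlc : (h.leadingCoeff : K) ≠ 0 := by
      have : h.leadingCoeff ≠ 0 := by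
        intro h0
        rw [leadingCoeff_eq_zero] at h0
        rw [h0, natDegree_zero] at hd
        exact lt_irrefl 0 hd
      exact_mod_cast this
    have hy0 : y ≠ 0 := by
      rintro rfl
      rw [zero_pow two_ne_zero] at hy
      exact mul_ne_zero hlc (pow_ne_zero _ hx) hy.symm
    have hc : Continuous fun z : K => hom h x z := by
      unfold hom
      fun_prop
    have h1 := hc.tendsto 0
    have h2 : hom h x (0 : K) = y ^ 2 := by rw [hom_zero_right, hy]
    rw [h2] at h1
    have h3 := h1 (Pool.Agent.Helper47.WA.squares_nhds y hy0)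
    rw [Filter.mem_map, Metric.mem_nhds_iff] at h3
    obtain ⟨δ, hδ, h4⟩ := h3
    obtain ⟨z, hz1, hz2⟩ := NormedField.exists_norm_lt K hδ
    obtain ⟨u, hu0, hu⟩ := h4 (show z ∈ Metric.ball (0 : K) δ by
      rw [Metric.mem_ball, dist_zero_right]; exact hz2)
    exact key x z u (norm_pos_iff.1 hz1) hu
  · exact key x z y hz hy

end

/-- clearing denominators -/
theorem clear (f : ℚ[X]) : ∃ (N : ℤ) (g : ℤ[X]), N ≠ 0 ∧ g.map (Int.castRingHom ℚ) = C (N : ℚ) * f := by
  obtain ⟨b, hb0, hb⟩ := IsLocalization.integerNormalization_spec (nonZeroDivisors ℤ) f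
  refine ⟨(b : ℤ), IsLocalization.integerNormalization (nonZeroDivisors ℤ) f,
    nonZeroDivisors.ne_zero hb0, ?_⟩
  have h1 : (algebraMap ℤ ℚ) = Int.castRingHom ℚ := RingHom.ext_int _ _
  rw [h1] at hb
  rw [hb]
  ext i
  rw [coeff_smul, coeff_C_mul, zsmul_eq_mul]

/-- a Bezout identity over the integers -/
theorem bezout (h : ℤ[X]) (hs : (h.map (Int.castRingHom ℚ)).Separable) :
    ∃ (U V : ℤ[X]) (R : ℤ), R ≠ 0 ∧ U * h + V * derivative h = C R := by
  obtain ⟨u, v, huv⟩ := hs
  obtain ⟨N1, U, hN1, hU⟩ := clear u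
  obtain ⟨N2, V, hN2, hV⟩ := clear v
  refine ⟨C N2 * U, C N1 * V, N1 * N2, mul_ne_zero hN1 hN2, ?_⟩
  apply map_injective (Int.castRingHom ℚ) (RingHom.injective_int _)
  rw [Polynomial.map_add, Polynomial.map_mul, Polynomial.map_mul, Polynomial.map_mul,
    Polynomial.map_mul, hU, hV, ← derivative_map, map_C, map_C, map_C]
  have e1 : ∀ n : ℤ, (Int.castRingHom ℚ) n = (n : ℚ) := fun n => rfl
  rw [e1, e1, e1]
  calc C (N2 : ℚ) * (C (N1 : ℚ) * u) * h.map (Int.castRingHom ℚ) +
        C (N1 : ℚ) * (C (N2 : ℚ) * v) * derivative (h.map (Int.castRingHom ℚ)) =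
        C (N1 : ℚ) * C (N2 : ℚ) * (u * h.map (Int.castRingHom ℚ) +
          v * derivative (h.map (Int.castRingHom ℚ))) := by ring
    _ = _ := by rw [huv, mul_one, ← C_mul]; push_cast; rfl

end Pool.Agent.Helper47.DM
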